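import Pool.Agent.H673R2.HardOn

/-!
# Search problems
-/

namespace Pool.Agent.H673R2

open Pool.Agent.NPC

/-- `P ≠ NP`: some language in `NP` is not decided by a polynomial-time function. -/
def PneNP : Prop := ∃ L : Set (List Bool), InNP L ∧
  ¬ ∃ V : List Bool → List Bool, PolyTime V ∧ ∀ x, x ∈ L ↔ V x = [true]

/-- The function `f` solves the search problem where, given `a` with the property `Pr`, one has to
find `b` such that `Sol a b`, or to report that there is none: on the code of `a` it outputs the
code of `some b` for such a `b`, or the code of `none` if there is no such `b`. -/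
def SolvesSearch {α β : Type} [TEnc α] [TEnc β] (Pr : α → Prop) (Sol : α → β → Prop)
    (f : List Bool → List Bool) : Prop :=
  ∀ a, Pr a → (∃ b, f (bits a) = bits (some b) ∧ Sol a b) ∨
    (f (bits a) = bits (none : Option β) ∧ ∀ b, ¬ Sol a b)

theorem no_search {α β : Type} [TEnc α] [TEnc β] {Pr : α → Prop} {Sol : α → β → Prop}
    (h : NPHardOn Pr fun a => ∃ b, Sol a b) (hne : PneNP) :
    ¬ ∃ f : List Bool → List Bool, PolyTime f ∧ SolvesSearch Pr Sol f := by
  rintro ⟨f, hf, hs⟩
  obtain ⟨L, hL, hL'⟩ := hne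
  apply hL'
  obtain ⟨g, hg, hgp, hgL⟩ := h L hL
  have h1 : PolyTime (fun x => f (bits (g x))) :=
    H642R2.TMSim.polyTime_comp (g := f) (f := fun x => bits (g x)) hf hg
  refine ⟨fun x => [decide ((f (bits (g x))).head? = some true)], ?_, fun x => ?_⟩
  · exact polyTime_test (g := fun y => decide (y.head? = some true)) h1
      (Poly.decide_eq (Poly.head? Poly.id) (NPC.Poly.const _))
  · rw [hgL x]
    change (∃ b, Sol (g x) b) ↔ [decide ((f (bits (g x))).head? = some true)] = [true]
    rcases hs (g x) (hgp x) with ⟨b, hb, hS⟩ | ⟨hb, hS⟩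
    · rw [hb]
      exact ⟨fun _ => by simp [bits, T.enc], fun _ => ⟨b, hS⟩⟩
    · rw [hb]
      refine ⟨fun ⟨b, hb'⟩ => absurd hb' (hS b), fun h => ?_⟩
      simp [bits, T.enc] at h

end Pool.Agent.H673R2
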