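import Pool.Agent.NPC.Dec
import Pool.Agent.NPC.Hard

/-!
# Hardness of problems restricted to a class of instances
-/

namespace Pool.Agent.H673R2

open Pool.Agent.NPC

/-- `P` is `NP`-hard on the instances satisfying `Pr`: for every language `L` in `NP` there is a
polynomial-time many-one reduction of `L` to `P` all of whose instances satisfy `Pr`. -/
def NPHardOn {α : Type} [TEnc α] (Pr P : α → Prop) : Prop :=
  ∀ L : Set (List Bool), InNP L → ∃ f : List Bool → α,
    PolyTime (fun x => bits (f x)) ∧ (∀ x, Pr (f x)) ∧ ∀ x, x ∈ L ↔ P (f x)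

/-- `P` is `coNP`-hard on the instances satisfying `Pr`: for every language `L` in `coNP` there is a
polynomial-time many-one reduction of `L` to `P` all of whose instances satisfy `Pr`. -/
def CoNPHardOn {α : Type} [TEnc α] (Pr P : α → Prop) : Prop :=
  ∀ L : Set (List Bool), InCoNP L → ∃ f : List Bool → α,
    PolyTime (fun x => bits (f x)) ∧ (∀ x, Pr (f x)) ∧ ∀ x, x ∈ L ↔ P (f x)

theorem npHardOn_of {α β : Type} [TEnc α] [TEnc β] {Pr P : α → Prop} {Pr' Q : β → Prop}
    (hP : HardPr Pr P) {f : α → β} (hf : Poly f) (hpr : ∀ a, Pr a → Pr' (f a))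
    (h : ∀ a, Pr a → (P a ↔ Q (f a))) : NPHardOn Pr' Q := by
  intro L hL
  obtain ⟨g, hg, hgp, hgL⟩ := hP L hL
  exact ⟨fun x => f (g x), PC.toPolyTime_bits hf g hg, fun x => hpr _ (hgp x),
    fun x => (hgL x).trans (h _ (hgp x))⟩

theorem coNPHardOn_of {α β : Type} [TEnc α] [TEnc β] {Pr P : α → Prop} {Pr' Q : β → Prop}
    (hP : HardPr Pr P) {f : α → β} (hf : Poly f) (hpr : ∀ a, Pr a → Pr' (f a))
    (h : ∀ a, Pr a → (P a ↔ ¬ Q (f a))) : CoNPHardOn Pr' Q := by
  intro L hL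
  obtain ⟨g, hg, hgp, hgL⟩ := hP Lᶜ hL
  refine ⟨fun x => f (g x), PC.toPolyTime_bits hf g hg, fun x => hpr _ (hgp x), fun x => ?_⟩
  have h1 := hgL x
  rw [h _ (hgp x), Set.mem_compl_iff] at h1
  exact not_iff_not.1 h1

theorem NPHardOn.toNPHardP {α : Type} [TEnc α] {Pr P : α → Prop} (h : NPHardOn Pr P) :
    NPHardP P := by
  intro L hL
  obtain ⟨f, hf, _, hfL⟩ := h L hL
  exact ⟨fun x => bits (f x), hf, fun x => (hfL x).trans bits_mem_lang.symm⟩

theorem CoNPHardOn.toCoNPHardP {α : Type} [TEnc α] {Pr P : α → Prop} (h : CoNPHardOn Pr P) :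
    CoNPHardP P := by
  intro L hL
  obtain ⟨f, hf, _, hfL⟩ := h L hL
  exact ⟨fun x => bits (f x), hf, fun x => (hfL x).trans bits_mem_lang.symm⟩

end Pool.Agent.H673R2
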