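import Pool.Agent.NPC.Sat2

/-!
# From 3SAT to a list colouring problem with lists `{0,1}`, `{1,2}`, `{0,1,2}`, `{1}`
-/

namespace Pool.Agent.H673R2.Pdp

open Pool.Agent.NPC

/-- 3CNF formulas -/
abbrev F3 : Type := List (Lit ℕ × Lit ℕ × Lit ℕ)

/-- the constraint `(b, p, q, r)`: if `r = b` then `p = q` -/
abbrev Con : Type := Bool × ℕ × ℕ × ℕ

/-- Satisfiability of constraints, with two constants. -/
def EqSat (cs : List Con) : Prop :=
  ∃ val : ℕ → Bool, val 0 = true ∧ val 1 = false ∧
    ∀ e ∈ cs, val e.2.2.2 = e.1 → val e.2.1 = val e.2.2.1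

/-- Well formed instances. -/
def EqOk (cs : List Con) : Prop :=
  cs ≠ [] ∧ ∀ e ∈ cs, e.2.1 < 2 * cs.length + 2 ∧ e.2.2.1 < 2 * cs.length + 2 ∧
    e.2.2.2 < 2 * cs.length + 2

/-- The constraints of a 3CNF formula. -/
def toCons (φ : F3) : List Con := φ.zipIdx.flatMap fun p =>
  [(!p.1.1.1, 0, 2 + 3 * φ.length + 2 * p.2, 2 + p.1.1.2),
   (!p.1.2.1.1, 2 + 3 * φ.length + 2 * p.2, 3 + 3 * φ.length + 2 * p.2, 2 + p.1.2.1.2),
   (!p.1.2.2.1, 3 + 3 * φ.length + 2 * p.2, 1, 2 + p.1.2.2.2)]

theorem toCons_length (φ : F3) : (toCons φ).length = 3 * φ.length := by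
  have h : ∀ (l : F3) (n m : ℕ), ((l.zipIdx m).flatMap fun p =>
    [(!p.1.1.1, 0, 2 + 3 * n + 2 * p.2, 2 + p.1.1.2),
     (!p.1.2.1.1, 2 + 3 * n + 2 * p.2, 3 + 3 * n + 2 * p.2, 2 + p.1.2.1.2),
     (!p.1.2.2.1, 3 + 3 * n + 2 * p.2, 1, 2 + p.1.2.2.2)]).length = 3 * l.length := by
    intro l
    induction l with
    | nil => intro n m; rfl
    | cons c l ih =>
      intro n m
      rw [List.zipIdx_cons, List.flatMap_cons, List.length_append, ih, List.length_cons]
      simp
      omega
  exact h φ _ _

theorem mem_toCons {φ : F3} {e : Con} : e ∈ toCons φ ↔ ∃ (m : ℕ) (h : m < φ.length),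
    e = (!φ[m].1.1, 0, 2 + 3 * φ.length + 2 * m, 2 + φ[m].1.2) ∨
    e = (!φ[m].2.1.1, 2 + 3 * φ.length + 2 * m, 3 + 3 * φ.length + 2 * m, 2 + φ[m].2.1.2) ∨
    e = (!φ[m].2.2.1, 3 + 3 * φ.length + 2 * m, 1, 2 + φ[m].2.2.2) := by
  unfold toCons
  rw [List.mem_flatMap]
  constructor
  · rintro ⟨⟨c, m⟩, hc, he⟩
    rw [List.mem_zipIdx_iff_getElem?] at hc
    simp only at hc
    obtain ⟨h, rfl⟩ := List.getElem?_eq_some_iff.1 hc
    refine ⟨m, h, ?_⟩
    simpa using he
  · rintro ⟨m, h, he⟩
    refine ⟨(φ[m], m), ?_, by simpa using he⟩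
    rw [List.mem_zipIdx_iff_getElem?]
    simp only
    exact List.getElem?_eq_getElem h

theorem eqOk_toCons {φ : F3} (hb : Bounded3 φ) (hne : φ ≠ []) : EqOk (toCons φ) := by
  have hl : 0 < φ.length := List.length_pos_iff.2 hne
  refine ⟨?_, ?_⟩
  · intro h
    have := toCons_length φ
    rw [h] at this
    simp at this
    exact hne this
  · intro e he
    rw [toCons_length]
    obtain ⟨m, hm, h⟩ := mem_toCons.1 he
    obtain ⟨h1, h2, h3⟩ := hb _ (List.getElem_mem hm)
    rcases h with rfl | rfl | rfl
    · simp only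
      omega
    · simp only
      omega
    · simp only
      omega

/-- truth of a literal -/
def tr (τ : ℕ → Bool) (l : Lit ℕ) : Bool := τ l.2 == l.1

/-- The assignment of the constraints coming from an assignment of the formula. -/
def toVal (φ : F3) (τ : ℕ → Bool) (v : ℕ) : Bool :=
  if v = 0 then true else if v = 1 then false else if v < 2 + 3 * φ.length then τ (v - 2) else
    match φ[(v - (2 + 3 * φ.length)) / 2]? with
    | none => false
    | some c => if (v - (2 + 3 * φ.length)) % 2 = 0 then !tr τ c.1 else !tr τ c.1 && !tr τ c.2.1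

theorem toVal_var {φ : F3} {τ : ℕ → Bool} {x : ℕ} (h : x < 3 * φ.length) :
    toVal φ τ (2 + x) = τ x := by
  unfold toVal
  rw [if_neg (by omega), if_neg (by omega), if_pos (by omega)]
  congr 1
  omega

theorem toVal_w1 {φ : F3} {τ : ℕ → Bool} {m : ℕ} (h : m < φ.length) :
    toVal φ τ (2 + 3 * φ.length + 2 * m) = !tr τ φ[m].1 := by
  unfold toVal
  rw [if_neg (by omega), if_neg (by omega), if_neg (by omega)]
  have h1 : (2 + 3 * φ.length + 2 * m - (2 + 3 * φ.length)) / 2 = m := by omega
  rw [h1, List.getElem?_eq_getElem h]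
  simp only
  rw [if_pos (by omega)]

theorem toVal_w2 {φ : F3} {τ : ℕ → Bool} {m : ℕ} (h : m < φ.length) :
    toVal φ τ (3 + 3 * φ.length + 2 * m) = (!tr τ φ[m].1 && !tr τ φ[m].2.1) := by
  unfold toVal
  rw [if_neg (by omega), if_neg (by omega), if_neg (by omega)]
  have h1 : (3 + 3 * φ.length + 2 * m - (2 + 3 * φ.length)) / 2 = m := by omega
  rw [h1, List.getElem?_eq_getElem h]
  simp only
  rw [if_neg (by omega)]

theorem eqSat_toCons {φ : F3} (hb : Bounded3 φ) : SAT3 φ ↔ EqSat (toCons φ) := by
  constructor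
  · rintro ⟨τ, hτ⟩
    refine ⟨toVal φ τ, by simp [toVal], by simp [toVal], ?_⟩
    intro e he
    obtain ⟨m, hm, h⟩ := mem_toCons.1 he
    obtain ⟨h1, h2, h3⟩ := hb _ (List.getElem_mem hm)
    have hc := hτ _ (List.getElem_mem hm)
    have h0 : toVal φ τ 0 = true := by simp [toVal]
    have h1' : toVal φ τ 1 = false := by simp [toVal]
    rcases h with rfl | rfl | rfl
    · simp only
      rw [toVal_var h1, toVal_w1 hm, h0]
      unfold tr
      cases τ φ[m].1.2 <;> cases φ[m].1.1 <;> simp
    · simp only
      rw [toVal_var h2, toVal_w1 hm, toVal_w2 hm]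
      unfold tr
      cases τ φ[m].2.1.2 <;> cases φ[m].2.1.1 <;> simp
    · simp only
      rw [toVal_var h3, toVal_w2 hm, h1']
      unfold tr
      intro h4
      rcases hc with hc | hc | hc
      · simp [hc]
      · simp [hc]
      · rw [hc] at h4
        simp at h4
  · rintro ⟨val, h0, h1, hv⟩
    refine ⟨fun x => val (2 + x), ?_⟩
    intro c hc
    obtain ⟨m, hm, rfl⟩ := List.getElem_of_mem hc
    have e1 := hv _ (mem_toCons.2 ⟨m, hm, Or.inl rfl⟩)
    have e2 := hv _ (mem_toCons.2 ⟨m, hm, Or.inr (Or.inl rfl)⟩)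
    have e3 := hv _ (mem_toCons.2 ⟨m, hm, Or.inr (Or.inr rfl)⟩)
    simp only at e1 e2 e3 ⊢
    by_contra hcon
    push Not at hcon
    obtain ⟨c1, c2, c3⟩ := hcon
    have f1 : val (2 + φ[m].1.2) = !φ[m].1.1 := by
      cases hh : φ[m].1.1 <;> cases hh2 : val (2 + φ[m].1.2) <;> simp_all
    have f2 : val (2 + φ[m].2.1.2) = !φ[m].2.1.1 := by
      cases hh : φ[m].2.1.1 <;> cases hh2 : val (2 + φ[m].2.1.2) <;> simp_all
    have f3 : val (2 + φ[m].2.2.2) = !φ[m].2.2.1 := by
      cases hh : φ[m].2.2.1 <;> cases hh2 : val (2 + φ[m].2.2.2) <;> simp_all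
    have g := (e1 f1).trans ((e2 f2).trans (e3 f3))
    rw [h0, h1] at g
    exact absurd g (by simp)

/-! ### The list colouring instance -/

/-- number of paths in the cycles of the variables -/
def nA (C : ℕ) : ℕ := (2 * C + 2) * (6 * C)
/-- number of auxiliary paths -/
def nB (C : ℕ) : ℕ := (2 * C + 2) * (2 * C)
/-- number of paths -/
def kk (C : ℕ) : ℕ := nA C + nB C + C + 1

/-- the type of a path -/
def ty (C i : ℕ) : ℕ :=
  if i < nA C then i % 3 else if i < nA C + nB C then 3 else if i < nA C + nB C + C then 2 else 3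

/-- the successor in a cycle -/
def sc (C i : ℕ) : ℕ := if (i + 1) % (6 * C) = 0 then i + 1 - 6 * C else i + 1

/-- a position in a cycle -/
def ps (C v j t : ℕ) : ℕ := 6 * C * v + 6 * j + t

/-- the pairs of the path of a constraint -/
def uE (C : ℕ) (e : Con) (j : ℕ) : List (ℕ × ℕ) :=
  [(nA C + nB C + j, ps C e.2.1 j (if e.1 = true then 4 else 0)),
    (nA C + nB C + j, ps C e.2.2.1 j (if e.1 = true then 4 else 0)),
    (nA C + nB C + j, ps C e.2.2.2 j (if e.1 = true then 0 else 4))]

/-- the set `F` -/
def FF (cs : List Con) : List (ℕ × ℕ) :=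
  ((List.range (nA cs.length)).map fun i => (i, sc cs.length i)) ++
  (((List.range (nB cs.length)).map fun q => (3 * q + 2, nA cs.length + q)) ++
  ((cs.zipIdx.flatMap fun p => uE cs.length p.1 p.2) ++
  [(nA cs.length + nB cs.length + cs.length, 3),
    (nA cs.length + nB cs.length + cs.length, 6 * cs.length + 1)]))

/-- the lists -/
def InL (T c : ℕ) : Prop := c < 3 ∧ (T = 0 → c ≠ 2) ∧ (T = 1 → c ≠ 0) ∧ (T = 3 → c = 1)

/-- proper list colourings -/
def ColSol (cs : List Con) (col : ℕ → ℕ) : Prop :=
  (∀ i < kk cs.length, InL (ty cs.length i) (col i)) ∧ ∀ e ∈ FF cs, col e.1 ≠ col e.2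

theorem mem_FF {cs : List Con} {e : ℕ × ℕ} : e ∈ FF cs ↔
    (∃ i < nA cs.length, e = (i, sc cs.length i)) ∨
    (∃ q < nB cs.length, e = (3 * q + 2, nA cs.length + q)) ∨
    (∃ (j : ℕ) (h : j < cs.length), e ∈ uE cs.length cs[j] j) ∨
    e = (nA cs.length + nB cs.length + cs.length, 3) ∨
    e = (nA cs.length + nB cs.length + cs.length, 6 * cs.length + 1) := by
  unfold FF
  simp only [List.mem_append, List.mem_map, List.mem_range, List.mem_flatMap, List.mem_cons,
    List.not_mem_nil, or_false]
  refine or_congr ?_ (or_congr ?_ (or_congr ?_ Iff.rfl))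
  · exact exists_congr fun i => and_congr Iff.rfl eq_comm
  · exact exists_congr fun i => and_congr Iff.rfl eq_comm
  · constructor
    · rintro ⟨⟨c, m⟩, hc, he⟩
      rw [List.mem_zipIdx_iff_getElem?] at hc
      simp only at hc
      obtain ⟨h, rfl⟩ := List.getElem?_eq_some_iff.1 hc
      exact ⟨m, h, he⟩
    · rintro ⟨m, h, he⟩
      refine ⟨(cs[m], m), ?_, he⟩
      rw [List.mem_zipIdx_iff_getElem?]
      exact List.getElem?_eq_getElem h

section Arith

variable {C : ℕ}

theorem nA_eq : nA C = 3 * nB C := by unfold nA nB; ring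

theorem lt_nA {v s : ℕ} (hv : v < 2 * C + 2) (hs : s < 6 * C) : 6 * C * v + s < nA C := by
  unfold nA
  have h1 : (v + 1) * (6 * C) ≤ (2 * C + 2) * (6 * C) := Nat.mul_le_mul_right _ hv
  have h2 : (v + 1) * (6 * C) = 6 * C * v + 6 * C := by ring
  omega

theorem ps_lt {v j t : ℕ} (hv : v < 2 * C + 2) (hj : j < C) (ht : t < 6) : ps C v j t < nA C := by
  unfold ps
  have := lt_nA (C := C) (v := v) (s := 6 * j + t) hv (by omega)
  omega

theorem add_mod3 (v s : ℕ) : (6 * C * v + s) % 3 = s % 3 := by
  have h : 6 * C * v = 3 * (2 * C * v) := by ring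
  rw [h]
  omega

theorem add_mod6 (v s : ℕ) : (6 * C * v + s) % 6 = s % 6 := by
  have h : 6 * C * v = 6 * (C * v) := by ring
  rw [h]
  omega

theorem ps_mod6 (v j t : ℕ) : ps C v j t % 6 = t % 6 := by
  unfold ps
  rw [Nat.add_assoc, add_mod6]
  omega

theorem sc_lt {v s : ℕ} (hs : s + 1 < 6 * C) : sc C (6 * C * v + s) = 6 * C * v + (s + 1) := by
  unfold sc
  rw [if_neg, Nat.add_assoc]
  rw [Nat.add_assoc, Nat.mul_add_mod, Nat.mod_eq_of_lt hs]
  omega

theorem sc_last {v s : ℕ} (hs : s + 1 = 6 * C) : sc C (6 * C * v + s) = 6 * C * v := by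
  unfold sc
  rw [if_pos]
  · omega
  · rw [Nat.add_assoc, hs, Nat.add_mod_right, Nat.mul_mod_right]

/-- decomposition of an index in a cycle -/
theorem decomp {i : ℕ} (hC : 0 < C) (hi : i < nA C) :
    ∃ v s, v < 2 * C + 2 ∧ s < 6 * C ∧ i = 6 * C * v + s := by
  refine ⟨i / (6 * C), i % (6 * C), ?_, Nat.mod_lt _ (by omega), (Nat.div_add_mod _ _).symm⟩
  exact Nat.div_lt_of_lt_mul (by unfold nA at hi; rw [Nat.mul_comm]; exact hi)

end Arith

/-- the state of a node in a cycle -/
def st (val : ℕ → Bool) (C i : ℕ) : ℕ := if val (i / (6 * C)) = true then i % 3 else (i + 1) % 3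

theorem st_eq {val : ℕ → Bool} {C v s : ℕ} (hs : s < 6 * C) :
    st val C (6 * C * v + s) = if val v = true then s % 3 else (s + 1) % 3 := by
  unfold st
  rw [Nat.mul_add_div (by omega), Nat.div_eq_of_lt hs, Nat.add_zero, add_mod3, Nat.add_assoc,
    add_mod3]

theorem st_ps {val : ℕ → Bool} {C v j t : ℕ} (hj : j < C) (ht : t < 6) :
    st val C (ps C v j t) = if val v = true then t % 3 else (t + 1) % 3 := by
  unfold ps
  rw [Nat.add_assoc, st_eq (by omega)]
  have h1 : (6 * j + t) % 3 = t % 3 := by omega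
  have h2 : (6 * j + t + 1) % 3 = (t + 1) % 3 := by omega
  rw [h1, h2]

theorem state_of_colSol {cs : List Con} (hne : cs ≠ []) {col : ℕ → ℕ} (h : ColSol cs col) :
    ∃ val : ℕ → Bool, ∀ i < nA cs.length, col i = st val cs.length i := by
  obtain ⟨hL, hF⟩ := h
  set C := cs.length with hCdef
  have hC : 0 < C := List.length_pos_iff.2 hne
  have hAB : nA C = 3 * nB C := nA_eq
  -- two possible colours
  have two : ∀ i < nA C, col i = i % 3 ∨ col i = (i + 1) % 3 := by
    intro i hi
    have h1 := hL i (by unfold kk; omega)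
    have h2 : ty C i = i % 3 := by unfold ty; rw [if_pos hi]
    rw [h2] at h1
    obtain ⟨c1, c2, c3, c4⟩ := h1
    have h3 : i % 3 = 2 → col i ≠ 1 := by
      intro h3
      have hq : i / 3 < nB C := by omega
      have h4 := hL (nA C + i / 3) (by unfold kk; omega)
      have h5 : ty C (nA C + i / 3) = 3 := by
        unfold ty
        rw [if_neg (by omega), if_pos (by omega)]
      rw [h5] at h4
      have h6 := h4.2.2.2 rfl
      have h7 := hF (3 * (i / 3) + 2, nA C + i / 3)
        (mem_FF.2 (Or.inr (Or.inl ⟨i / 3, hq, rfl⟩)))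
      simp only at h7
      have h8 : 3 * (i / 3) + 2 = i := by omega
      rw [h8, h6] at h7
      exact h7
    have h4 : i % 3 = 0 ∨ i % 3 = 1 ∨ i % 3 = 2 := by omega
    rcases h4 with h4 | h4 | h4
    · have := c2 h4; omega
    · have := c3 h4; omega
    · have := h3 h4; omega
  -- propagation
  have prop : ∀ i < nA C, ∀ j, sc C i = j → j < nA C → j % 3 = (i + 1) % 3 →
      col i = (i + 1) % 3 → col j = (j + 1) % 3 := by
    intro i hi j hj hjA hj3 hci
    have h1 := hF (i, sc C i) (mem_FF.2 (Or.inl ⟨i, hi, rfl⟩))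
    simp only at h1
    rw [hj] at h1
    rcases two j hjA with h2 | h2
    · rw [h2, hci] at h1
      omega
    · exact h2
  have up : ∀ v < 2 * C + 2, ∀ s, ∀ d, s + d < 6 * C → col (6 * C * v + s) = (s + 1) % 3 →
      col (6 * C * v + (s + d)) = (s + d + 1) % 3 := by
    intro v hv s d
    have hX := add_mod3 (C := C) v 0
    induction d with
    | zero => intro _ h; exact h
    | succ d ih =>
      intro hd h0
      have h1 := ih (by omega) h0
      have h2 := prop (6 * C * v + (s + d)) (lt_nA hv (by omega)) (6 * C * v + (s + d + 1))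
        (sc_lt (by omega)) (lt_nA hv (by omega)) (by omega) (by omega)
      rw [← Nat.add_assoc s d 1, h2]
      omega
  have all : ∀ v < 2 * C + 2, ∀ s < 6 * C, ∀ s' < 6 * C, col (6 * C * v + s) = (s + 1) % 3 →
      col (6 * C * v + s') = (s' + 1) % 3 := by
    intro v hv s hs s' hs' h0
    have h1 := up v hv s (6 * C - 1 - s) (by omega) h0
    have h2 : s + (6 * C - 1 - s) = 6 * C - 1 := by omega
    rw [h2] at h1
    have hX := add_mod3 (C := C) v 0
    have h3 := prop (6 * C * v + (6 * C - 1)) (lt_nA hv (by omega)) (6 * C * v)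
      (sc_last (by omega)) (by have := lt_nA (C := C) (v := v) (s := 0) hv (by omega); omega)
      (by omega) (by omega)
    have h4 := up v hv 0 s' (by omega) (by
      rw [Nat.add_zero, h3]
      omega)
    rw [Nat.zero_add] at h4
    exact h4
  refine ⟨fun v => decide (col (6 * C * v) = 0), fun i hi => ?_⟩
  obtain ⟨v, s, hv, hs, rfl⟩ := decomp hC hi
  rw [st_eq hs]
  have h0 := two (6 * C * v + 0) (lt_nA hv (by omega))
  rw [add_mod3, Nat.add_assoc, add_mod3, Nat.add_zero] at h0
  by_cases hv0 : col (6 * C * v) = 0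
  · simp only [hv0, decide_true, if_true]
    rcases two (6 * C * v + s) (lt_nA hv hs) with h1 | h1
    · rw [h1, add_mod3]
    · rw [Nat.add_assoc, add_mod3] at h1
      have h2 := all v hv s hs 0 (by omega) h1
      rw [Nat.add_zero, hv0] at h2
      omega
  · simp only [hv0, decide_false, Bool.false_eq_true, if_false]
    have h1 : col (6 * C * v) = 1 := by omega
    exact all v hv 0 (by omega) s hs (by rw [Nat.add_zero, h1])

/-- the colour of the path of a constraint -/
def fc (b p q r : Bool) : ℕ :=
  if b then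
    (if 0 ≠ (if r then 0 else 1) then 0
      else if 1 ≠ (if p then 1 else 2) ∧ 1 ≠ (if q then 1 else 2) then 1 else 2)
  else
    (if 2 ≠ (if r then 1 else 2) then 2
      else if 1 ≠ (if p then 0 else 1) ∧ 1 ≠ (if q then 0 else 1) then 1 else 0)

theorem fc_spec : ∀ b p q r : Bool, (r = b → p = q) → fc b p q r < 3 ∧
    fc b p q r ≠ (if p then (if b then 4 else 0) % 3 else ((if b then 4 else 0) + 1) % 3) ∧
    fc b p q r ≠ (if q then (if b then 4 else 0) % 3 else ((if b then 4 else 0) + 1) % 3) ∧
    fc b p q r ≠ (if r then (if b then 0 else 4) % 3 else ((if b then 0 else 4) + 1) % 3) := by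
  decide

theorem fc_conv : ∀ b p q r : Bool, ∀ c < 3,
    c ≠ (if p then (if b then 4 else 0) % 3 else ((if b then 4 else 0) + 1) % 3) →
    c ≠ (if q then (if b then 4 else 0) % 3 else ((if b then 4 else 0) + 1) % 3) →
    c ≠ (if r then (if b then 0 else 4) % 3 else ((if b then 0 else 4) + 1) % 3) →
    r = b → p = q := by
  intro b p q r c hc
  have h : c = 0 ∨ c = 1 ∨ c = 2 := by omega
  rcases h with rfl | rfl | rfl <;> revert b p q r <;> decide

/-- The colouring coming from an assignment. -/
def toCol (cs : List Con) (val : ℕ → Bool) (i : ℕ) : ℕ :=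
  if i < nA cs.length then st val cs.length i else if i < nA cs.length + nB cs.length then 1 else
    match cs[i - (nA cs.length + nB cs.length)]? with
    | none => 1
    | some e => fc e.1 (val e.2.1) (val e.2.2.1) (val e.2.2.2)

theorem colSol_iff {cs : List Con} (hok : EqOk cs) : EqSat cs ↔ ∃ col, ColSol cs col := by
  obtain ⟨hne, hb⟩ := hok
  have hC : 0 < cs.length := List.length_pos_iff.2 hne
  have hAB : nA cs.length = 3 * nB cs.length := nA_eq
  have h3A : 3 < nA cs.length := by
    have := lt_nA (C := cs.length) (v := 0) (s := 3) (by omega) (by omega)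
    omega
  have h1A : 6 * cs.length + 1 < nA cs.length := by
    have := lt_nA (C := cs.length) (v := 1) (s := 1) (by omega) (by omega)
    omega
  constructor
  · rintro ⟨val, h0, h1, hv⟩
    refine ⟨toCol cs val, ?_, ?_⟩
    · intro i hi
      unfold kk at hi
      unfold toCol ty
      by_cases hi1 : i < nA cs.length
      · rw [if_pos hi1, if_pos hi1]
        unfold st InL
        split_ifs <;> omega
      · rw [if_neg hi1, if_neg hi1]
        by_cases hi2 : i < nA cs.length + nB cs.length
        · rw [if_pos hi2, if_pos hi2]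
          unfold InL
          omega
        · rw [if_neg hi2, if_neg hi2]
          by_cases hi3 : i < nA cs.length + nB cs.length + cs.length
          · rw [if_pos hi3, List.getElem?_eq_getElem (by omega)]
            simp only
            have := (fc_spec _ _ _ _ (hv _ (List.getElem_mem (l := cs)
              (n := i - (nA cs.length + nB cs.length)) (by omega)))).1
            unfold InL
            omega
          · rw [if_neg hi3, List.getElem?_eq_none (by omega)]
            simp only
            unfold InL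
            omega
    · intro e he
      rcases mem_FF.1 he with ⟨i, hi, rfl⟩ | ⟨q, hq, rfl⟩ | ⟨j, hj, he⟩ | rfl | rfl
      · obtain ⟨v, s, hv', hs, rfl⟩ := decomp hC hi
        simp only
        unfold toCol
        rw [if_pos hi, st_eq hs]
        by_cases hs1 : s + 1 < 6 * cs.length
        · rw [sc_lt hs1, if_pos (lt_nA hv' hs1), st_eq hs1]
          split_ifs <;> omega
        · have hs2 : s + 1 = 6 * cs.length := by omega
          have h5 : 6 * cs.length * v < nA cs.length := by
            have := lt_nA (C := cs.length) (v := v) (s := 0) hv' (by omega)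
            omega
          have h6 := st_eq (val := val) (C := cs.length) (v := v) (s := 0) (by omega)
          rw [Nat.add_zero] at h6
          rw [sc_last hs2, if_pos h5, h6]
          split_ifs <;> omega
      · simp only
        unfold toCol
        rw [if_pos (by omega), if_neg (by omega), if_pos (by omega)]
        unfold st
        split_ifs <;> omega
      · have hu : toCol cs val (nA cs.length + nB cs.length + j) =
            fc cs[j].1 (val cs[j].2.1) (val cs[j].2.2.1) (val cs[j].2.2.2) := by
          unfold toCol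
          rw [if_neg (by omega), if_neg (by omega), Nat.add_sub_cancel_left,
            List.getElem?_eq_getElem hj]
        obtain ⟨b1, b2, b3⟩ := hb _ (List.getElem_mem hj)
        obtain ⟨c0, c1, c2, c3⟩ := fc_spec _ _ _ _ (hv _ (List.getElem_mem hj))
        have ht4 : (if cs[j].1 = true then 4 else 0) < 6 := by split_ifs <;> omega
        have ht0 : (if cs[j].1 = true then 0 else 4) < 6 := by split_ifs <;> omega
        unfold uE at he
        simp only [List.mem_cons, List.not_mem_nil, or_false] at he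
        rcases he with rfl | rfl | rfl
        · simp only
          rw [hu]
          unfold toCol
          rw [if_pos (ps_lt b1 hj ht4), st_ps hj ht4]
          exact c1
        · simp only
          rw [hu]
          unfold toCol
          rw [if_pos (ps_lt b2 hj ht4), st_ps hj ht4]
          exact c2
        · simp only
          rw [hu]
          unfold toCol
          rw [if_pos (ps_lt b3 hj ht0), st_ps hj ht0]
          exact c3
      · simp only
        have h6 := st_eq (val := val) (C := cs.length) (v := 0) (s := 3) (by omega)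
        rw [Nat.mul_zero, Nat.zero_add] at h6
        unfold toCol
        rw [if_neg (by omega), if_neg (by omega), List.getElem?_eq_none (by omega), if_pos h3A, h6,
          h0]
        simp
      · simp only
        have h6 := st_eq (val := val) (C := cs.length) (v := 1) (s := 1) (by omega)
        rw [Nat.mul_one] at h6
        unfold toCol
        rw [if_neg (by omega), if_neg (by omega), List.getElem?_eq_none (by omega), if_pos h1A, h6,
          h1]
        simp
  · rintro ⟨col, hcol⟩
    obtain ⟨val, hst⟩ := state_of_colSol hne hcol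
    obtain ⟨hL, hF⟩ := hcol
    have hpin : col (nA cs.length + nB cs.length + cs.length) = 1 := by
      have h4 := hL (nA cs.length + nB cs.length + cs.length) (by unfold kk; omega)
      have h5 : ty cs.length (nA cs.length + nB cs.length + cs.length) = 3 := by
        unfold ty
        rw [if_neg (by omega), if_neg (by omega), if_neg (by omega)]
      rw [h5] at h4
      exact h4.2.2.2 rfl
    refine ⟨val, ?_, ?_, ?_⟩
    · have h6 := st_eq (val := val) (C := cs.length) (v := 0) (s := 3) (by omega)
      rw [Nat.mul_zero, Nat.zero_add] at h6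
      have h7 := hF _ (mem_FF.2 (Or.inr (Or.inr (Or.inr (Or.inl rfl)))))
      simp only at h7
      rw [hpin, hst 3 h3A, h6] at h7
      by_contra h8
      rw [if_neg h8] at h7
      exact h7 rfl
    · have h6 := st_eq (val := val) (C := cs.length) (v := 1) (s := 1) (by omega)
      rw [Nat.mul_one] at h6
      have h7 := hF _ (mem_FF.2 (Or.inr (Or.inr (Or.inr (Or.inr rfl)))))
      simp only at h7
      rw [hpin, hst _ h1A, h6] at h7
      by_contra h8
      rw [Bool.not_eq_false] at h8
      rw [if_pos h8] at h7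
      exact h7 rfl
    · intro e he
      obtain ⟨j, hj, rfl⟩ := List.getElem_of_mem he
      obtain ⟨b1, b2, b3⟩ := hb _ (List.getElem_mem hj)
      have hu := hL (nA cs.length + nB cs.length + j) (by unfold kk; omega)
      have ht4 : (if cs[j].1 = true then 4 else 0) < 6 := by split_ifs <;> omega
      have ht0 : (if cs[j].1 = true then 0 else 4) < 6 := by split_ifs <;> omega
      have e1 := hF (nA cs.length + nB cs.length + j, ps cs.length cs[j].2.1 j
          (if cs[j].1 = true then 4 else 0))
        (mem_FF.2 (Or.inr (Or.inr (Or.inl ⟨j, hj, by simp [uE]⟩))))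
      have e2 := hF (nA cs.length + nB cs.length + j, ps cs.length cs[j].2.2.1 j
          (if cs[j].1 = true then 4 else 0))
        (mem_FF.2 (Or.inr (Or.inr (Or.inl ⟨j, hj, by simp [uE]⟩))))
      have e3 := hF (nA cs.length + nB cs.length + j, ps cs.length cs[j].2.2.2 j
          (if cs[j].1 = true then 0 else 4))
        (mem_FF.2 (Or.inr (Or.inr (Or.inl ⟨j, hj, by simp [uE]⟩))))
      simp only at e1 e2 e3
      rw [hst _ (ps_lt b1 hj ht4), st_ps hj ht4] at e1
      rw [hst _ (ps_lt b2 hj ht4), st_ps hj ht4] at e2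
      rw [hst _ (ps_lt b3 hj ht0), st_ps hj ht0] at e3
      exact fc_conv _ _ _ _ _ hu.1 e1 e2 e3

end Pool.Agent.H673R2.Pdp
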