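import Mathlib

/-!
# The partially disjoint paths problem: definitions
-/

namespace Pool.Agent.H673R2.Pdp

/-- `P` is a directed path from `r` to `s` in the digraph with arc list `A`: a list of distinct
vertices that starts with `r`, ends with `s`, and in which any vertex is joined to the next one by
an arc. -/
def IsDiPath (A : List (ℕ × ℕ)) (r s : ℕ) (P : List ℕ) : Prop :=
  P.Nodup ∧ P.head? = some r ∧ P.getLast? = some s ∧ P.IsChain (fun u v => (u, v) ∈ A)

/-- The disjointness graph `Γ` on the indices `0, …, k-1`: its edges are the pairs in `F`. -/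
def Gam (k : ℕ) (F : List (ℕ × ℕ)) : SimpleGraph (Fin k) :=
  SimpleGraph.fromRel fun i j => ((i : ℕ), (j : ℕ)) ∈ F

/-- `P` is a solution of the partially disjoint paths problem with arcs `A`, terminal pairs
`T = (r_1, s_1), …, (r_k, s_k)` and set of pairs `F`: `P` is a list of `k` directed paths, the
`i`-th one from `r_i` to `s_i`, and the `i`-th and the `j`-th have no common vertex whenever
`{i, j}` is in `F`. -/
def IsSolution (A T F : List (ℕ × ℕ)) (P : List (List ℕ)) : Prop :=
  P.length = T.length ∧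
    (∀ i < T.length, IsDiPath A (T.getD i (0, 0)).1 (T.getD i (0, 0)).2 (P.getD i [])) ∧
    ∀ e ∈ F, ∀ v ∈ P.getD e.1 [], v ∉ P.getD e.2 []

/-- There is a solution. -/
def Solvable (A T F : List (ℕ × ℕ)) : Prop := ∃ P, IsSolution A T F P

/-- The data are well formed, for the vertex set `{0, …, n-1}`: arcs join two different vertices,
terminals are vertices, `F` consists of pairs of different indices, and (no isolated vertices) every
vertex is an end of an arc. -/
def WellFormed (n : ℕ) (A T F : List (ℕ × ℕ)) : Prop :=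
  (∀ a ∈ A, a.1 < n ∧ a.2 < n ∧ a.1 ≠ a.2) ∧ (∀ t ∈ T, t.1 < n ∧ t.2 < n) ∧
    (∀ e ∈ F, e.1 < T.length ∧ e.2 < T.length ∧ e.1 ≠ e.2) ∧
    ∀ v < n, ∃ a ∈ A, v = a.1 ∨ v = a.2

/-- The `2k` terminals `r_1, s_1, …, r_k, s_k` are pairwise different. -/
def DistinctTerminals (T : List (ℕ × ℕ)) : Prop := (T.flatMap fun t => [t.1, t.2]).Nodup

/-- `pos` is a plane straight-line drawing of the digraph with vertices `0, …, n-1` and arcs `A`:
different vertices are drawn at different points; an arc, drawn as the segment joining its ends,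
contains no vertex except its ends; and different arcs have no common inner point. -/
structure IsPlaneDrawing (n : ℕ) (A : List (ℕ × ℕ)) (pos : ℕ → ℝ × ℝ) : Prop where
  inj : ∀ u < n, ∀ v < n, pos u = pos v → u = v
  vertex : ∀ a ∈ A, ∀ w < n, pos w ∈ segment ℝ (pos a.1) (pos a.2) → w = a.1 ∨ w = a.2
  cross : ∀ a ∈ A, ∀ b ∈ A, a ≠ b →
    Disjoint (openSegment ℝ (pos a.1) (pos a.2)) (openSegment ℝ (pos b.1) (pos b.2))

/-- The set of all points of the drawing. -/
def drawing (n : ℕ) (A : List (ℕ × ℕ)) (pos : ℕ → ℝ × ℝ) : Set (ℝ × ℝ) :=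
  {z | (∃ v < n, z = pos v) ∨ ∃ a ∈ A, z ∈ segment ℝ (pos a.1) (pos a.2)}

/-- The faces of the drawing: the connected components of the complement of the drawing. -/
def IsFace (n : ℕ) (A : List (ℕ × ℕ)) (pos : ℕ → ℝ × ℝ) (f : Set (ℝ × ℝ)) : Prop :=
  ∃ z ∈ (drawing n A pos)ᶜ, f = connectedComponentIn (drawing n A pos)ᶜ z

/-- The point of the plane given by an entry of a list of coordinates. -/
def posOf (L : List (ℕ × ℕ)) (v : ℕ) : ℝ × ℝ := ((L.getD v (0, 0)).1, (L.getD v (0, 0)).2)

/-- All terminals lie on the boundaries of at most `p` faces of the drawing. -/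
def TerminalsOnFaces (n : ℕ) (A T : List (ℕ × ℕ)) (pos : ℕ → ℝ × ℝ) (p : ℕ) : Prop :=
  ∃ S : Finset (Set (ℝ × ℝ)), S.card ≤ p ∧ (∀ f ∈ S, IsFace n A pos f) ∧
    ∀ t ∈ T, (∃ f ∈ S, pos t.1 ∈ frontier f) ∧ ∃ f ∈ S, pos t.2 ∈ frontier f

end Pool.Agent.H673R2.Pdp
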