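import Pool.Agent.H673R2.PdpCol
import Pool.Agent.H673R2.PdpDefs

/-!
# The instance of the partially disjoint paths problem
-/

namespace Pool.Agent.H673R2.Pdp

open Pool.Agent.NPC

/-- the arcs of the fixed part: `3, 5, 7, 9` are the sources and `4, 6, 8, 10` the sinks of the four
types of paths, `0, 1, 2` are the three cells -/
def coreA : List (ℕ × ℕ) :=
  [(3, 0), (3, 1), (0, 4), (1, 4), (5, 1), (5, 2), (1, 6), (2, 6),
    (7, 0), (7, 1), (7, 2), (0, 8), (1, 8), (2, 8), (9, 1), (1, 10)]

/-- the arcs -/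
def arcsOf (k : ℕ) (τ : ℕ → ℕ) : List (ℕ × ℕ) :=
  coreA ++ (List.range k).flatMap fun i => [(11 + 2 * i, 3 + 2 * τ i), (4 + 2 * τ i, 12 + 2 * i)]

/-- the terminals -/
def termsOf (k : ℕ) : List (ℕ × ℕ) := (List.range k).map fun i => (11 + 2 * i, 12 + 2 * i)

theorem mem_arcsOf {k : ℕ} {τ : ℕ → ℕ} {a : ℕ × ℕ} : a ∈ arcsOf k τ ↔ a ∈ coreA ∨
    ∃ i < k, a = (11 + 2 * i, 3 + 2 * τ i) ∨ a = (4 + 2 * τ i, 12 + 2 * i) := by
  unfold arcsOf
  rw [List.mem_append, List.mem_flatMap]
  simp

theorem termsOf_length (k : ℕ) : (termsOf k).length = k := by simp [termsOf]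

theorem termsOf_get (k : ℕ) (i : ℕ) (h : i < (termsOf k).length) :
    (termsOf k)[i] = (11 + 2 * i, 12 + 2 * i) := by simp [termsOf]

theorem coreA_src : ∀ a ∈ coreA, a.1 < 11 ∧ a.2 < 11 := by decide

theorem coreA_list : ∀ a ∈ coreA, ∀ T < 4, a.1 = 3 + 2 * T →
    a.2 < 3 ∧ (T = 0 → a.2 ≠ 2) ∧ (T = 1 → a.2 ≠ 0) ∧ (T = 3 → a.2 = 1) := by decide

theorem coreA_in : ∀ T < 4, ∀ c < 3, (T = 0 → c ≠ 2) → (T = 1 → c ≠ 0) → (T = 3 → c = 1) →
    (3 + 2 * T, c) ∈ coreA ∧ (c, 4 + 2 * T) ∈ coreA := by
  intro T hT c hc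
  have h1 : T = 0 ∨ T = 1 ∨ T = 2 ∨ T = 3 := by omega
  have h2 : c = 0 ∨ c = 1 ∨ c = 2 := by omega
  rcases h1 with rfl | rfl | rfl | rfl <;> rcases h2 with rfl | rfl | rfl <;> decide

theorem cell_of_path {k : ℕ} {τ : ℕ → ℕ} (hτ : ∀ i, τ i < 4) {i : ℕ} {P : List ℕ}
    (hP : IsDiPath (arcsOf k τ) (11 + 2 * i) (12 + 2 * i) P) : ∃ c ∈ P, InL (τ i) c := by
  obtain ⟨_, hh, hl, hc⟩ := hP
  have h4 := hτ i
  match P, hh, hl, hc with
  | [], hh, _, _ => simp at hh
  | [a], hh, hl, _ =>
    simp at hh hl
    omega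
  | [a, b], hh, hl, hc =>
    exfalso
    simp only [List.head?_cons, Option.some.injEq] at hh
    simp only [List.getLast?_cons_cons, List.getLast?_singleton, Option.some.injEq] at hl
    rw [List.isChain_cons_cons] at hc
    have h1 := hc.1
    rw [mem_arcsOf] at h1
    rcases h1 with h1 | ⟨j, hj, h1 | h1⟩
    · have := coreA_src _ h1
      simp only at this
      omega
    · simp only [Prod.mk.injEq] at h1
      have := hτ j
      omega
    · simp only [Prod.mk.injEq] at h1
      omega
  | a :: b :: c :: P', hh, hl, hc =>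
    simp only [List.head?_cons, Option.some.injEq] at hh
    rw [List.isChain_cons_cons, List.isChain_cons_cons] at hc
    obtain ⟨h1, h2, _⟩ := hc
    have hb : b = 3 + 2 * τ i := by
      rw [mem_arcsOf] at h1
      rcases h1 with h1 | ⟨j, hj, h1 | h1⟩
      · have := coreA_src _ h1
        simp only at this
        omega
      · simp only [Prod.mk.injEq] at h1
        obtain ⟨h3, h5⟩ := h1
        have : i = j := by omega
        rw [h5, this]
      · simp only [Prod.mk.injEq] at h1
        have := hτ j
        omega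
    refine ⟨c, by simp, ?_⟩
    rw [mem_arcsOf] at h2
    rcases h2 with h2 | ⟨j, hj, h2 | h2⟩
    · exact coreA_list _ h2 (τ i) h4 hb
    · simp only [Prod.mk.injEq] at h2
      omega
    · simp only [Prod.mk.injEq] at h2
      have := hτ j
      omega

theorem solvable_iff {k : ℕ} {τ : ℕ → ℕ} (hτ : ∀ i, τ i < 4) {F : List (ℕ × ℕ)}
    (hF : ∀ e ∈ F, e.1 < k ∧ e.2 < k ∧ τ e.1 ≠ τ e.2) :
    Solvable (arcsOf k τ) (termsOf k) F ↔
      ∃ col : ℕ → ℕ, (∀ i < k, InL (τ i) (col i)) ∧ ∀ e ∈ F, col e.1 ≠ col e.2 := by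
  have hlen := termsOf_length k
  have hget : ∀ i < k, (termsOf k).getD i (0, 0) = (11 + 2 * i, 12 + 2 * i) := by
    intro i hi
    rw [List.getD_eq_getElem _ _ (by omega), termsOf_get]
  constructor
  · rintro ⟨P, hPl, hP, hd⟩
    have h1 : ∀ i : ℕ, ∃ c : ℕ, i < k → c ∈ P.getD i [] ∧ InL (τ i) c := by
      intro i
      by_cases h : i < k
      · have h2 := hP i (by omega)
        rw [hget i h] at h2
        obtain ⟨c, hc, hL⟩ := cell_of_path hτ h2
        exact ⟨c, fun _ => ⟨hc, hL⟩⟩
      · exact ⟨0, fun h' => absurd h' h⟩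
    choose col hcol using h1
    refine ⟨col, fun i hi => (hcol i hi).2, ?_⟩
    intro e he heq
    obtain ⟨ha, hb, hne⟩ := hF e he
    refine hd e he (col e.1) (hcol e.1 ha).1 ?_
    rw [heq]
    exact (hcol e.2 hb).1
  · rintro ⟨col, hL, hne⟩
    let Q : ℕ → List ℕ := fun i => [11 + 2 * i, 3 + 2 * τ i, col i, 4 + 2 * τ i, 12 + 2 * i]
    have hQ : ∀ i < k, ((List.range k).map Q).getD i [] = Q i := by
      intro i hi
      rw [List.getD_eq_getElem _ _ (by simpa using hi), List.getElem_map, List.getElem_range]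
    refine ⟨(List.range k).map Q, by simp [hlen], ?_, ?_⟩
    · intro i hi
      have hi : i < k := by omega
      rw [hget i hi, hQ i hi]
      obtain ⟨l1, l2, l3, l4⟩ := hL i hi
      have h4 := hτ i
      have h5 := coreA_in (τ i) h4 (col i) l1 l2 l3 l4
      refine ⟨?_, rfl, rfl, ?_⟩
      · simp only [Q, List.nodup_cons, List.mem_cons, List.not_mem_nil, or_false, not_or,
          not_false_eq_true, List.nodup_nil, and_true]
        omega
      · simp only [Q, List.isChain_cons_cons, List.isChain_singleton, and_true]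
        refine ⟨?_, ?_, ?_, ?_⟩
        · exact mem_arcsOf.2 (Or.inr ⟨i, hi, Or.inl rfl⟩)
        · exact mem_arcsOf.2 (Or.inl h5.1)
        · exact mem_arcsOf.2 (Or.inl h5.2)
        · exact mem_arcsOf.2 (Or.inr ⟨i, hi, Or.inr rfl⟩)
    · intro e he v hv hv'
      obtain ⟨hi, hj, hty⟩ := hF e he
      rw [hQ _ hi] at hv
      rw [hQ _ hj] at hv'
      have hcc := hne e he
      have hij : e.1 ≠ e.2 := fun h => hty (by rw [h])
      have l1 := (hL _ hi).1
      have l1' := (hL _ hj).1
      have h4 := hτ e.1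
      have h4' := hτ e.2
      simp only [Q, List.mem_cons, List.not_mem_nil, or_false] at hv hv'
      omega

theorem ty_lt (C i : ℕ) : ty C i < 4 := by unfold ty; split_ifs <;> omega

theorem FF_spec {cs : List Con} (hok : EqOk cs) : ∀ e ∈ FF cs, e.1 < kk cs.length ∧
    e.2 < kk cs.length ∧ ty cs.length e.1 ≠ ty cs.length e.2 := by
  obtain ⟨hne, hb⟩ := hok
  have hC : 0 < cs.length := List.length_pos_iff.2 hne
  have hAB : nA cs.length = 3 * nB cs.length := nA_eq
  have h3A : 3 < nA cs.length := by
    have := lt_nA (C := cs.length) (v := 0) (s := 3) (by omega) (by omega)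
    omega
  have h1A : 6 * cs.length + 1 < nA cs.length := by
    have := lt_nA (C := cs.length) (v := 1) (s := 1) (by omega) (by omega)
    omega
  intro e he
  unfold kk
  rcases mem_FF.1 he with ⟨i, hi, rfl⟩ | ⟨q, hq, rfl⟩ | ⟨j, hj, he⟩ | rfl | rfl
  · obtain ⟨v, s, hv', hs, rfl⟩ := decomp hC hi
    have hX := add_mod3 (C := cs.length) v 0
    simp only
    by_cases hs1 : s + 1 < 6 * cs.length
    · have := lt_nA hv' hs1
      rw [sc_lt hs1]
      refine ⟨by omega, by omega, ?_⟩
      unfold ty
      rw [if_pos hi, if_pos this]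
      omega
    · have hs2 : s + 1 = 6 * cs.length := by omega
      rw [sc_last hs2]
      refine ⟨by omega, by omega, ?_⟩
      unfold ty
      rw [if_pos hi, if_pos (by omega)]
      omega
  · simp only
    refine ⟨by omega, by omega, ?_⟩
    unfold ty
    rw [if_pos (by omega), if_neg (by omega), if_pos (by omega)]
    omega
  · obtain ⟨b1, b2, b3⟩ := hb _ (List.getElem_mem hj)
    have hu : ty cs.length (nA cs.length + nB cs.length + j) = 2 := by
      unfold ty
      rw [if_neg (by omega), if_neg (by omega), if_pos (by omega)]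
    have ht4 : (if cs[j].1 = true then 4 else 0) < 6 := by split_ifs <;> omega
    have ht0 : (if cs[j].1 = true then 0 else 4) < 6 := by split_ifs <;> omega
    have ht4' : (if cs[j].1 = true then 4 else 0) % 3 ≠ 2 := by split_ifs <;> omega
    have ht0' : (if cs[j].1 = true then 0 else 4) % 3 ≠ 2 := by split_ifs <;> omega
    have hpt : ∀ v t, v < 2 * cs.length + 2 → t < 6 → t % 3 ≠ 2 →
        ps cs.length v j t < nA cs.length ∧ (2 ≠ ty cs.length (ps cs.length v j t)) := by
      intro v t hv ht ht3
      have h1 := ps_lt hv hj ht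
      have h2 := ps_mod6 (C := cs.length) v j t
      refine ⟨h1, ?_⟩
      unfold ty
      rw [if_pos h1]
      omega
    unfold uE at he
    simp only [List.mem_cons, List.not_mem_nil, or_false] at he
    rcases he with rfl | rfl | rfl
    · have := hpt _ _ b1 ht4 ht4'
      simp only
      refine ⟨by omega, by omega, ?_⟩
      rw [hu]
      exact this.2
    · have := hpt _ _ b2 ht4 ht4'
      simp only
      refine ⟨by omega, by omega, ?_⟩
      rw [hu]
      exact this.2
    · have := hpt _ _ b3 ht0 ht0'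
      simp only
      refine ⟨by omega, by omega, ?_⟩
      rw [hu]
      exact this.2
  · simp only
    refine ⟨by omega, by omega, ?_⟩
    unfold ty
    rw [if_neg (by omega), if_neg (by omega), if_neg (by omega), if_pos (by omega)]
    omega
  · simp only
    refine ⟨by omega, by omega, ?_⟩
    unfold ty
    rw [if_neg (by omega), if_neg (by omega), if_neg (by omega), if_pos h1A]
    omega

/-! ### The disjointness graph -/

/-- the predecessor in a cycle -/
def pr (C i : ℕ) : ℕ := if i % (6 * C) = 0 then i + 6 * C - 1 else i - 1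

theorem pr_sc {C : ℕ} (hC : 0 < C) {i : ℕ} : pr C (sc C i) = i := by
  unfold pr sc
  by_cases h : (i + 1) % (6 * C) = 0
  · rw [if_pos h]
    have h1 : 6 * C ≤ i + 1 := by
      by_contra hlt
      rw [Nat.mod_eq_of_lt (by omega)] at h
      omega
    rw [if_pos]
    · omega
    · rw [← Nat.mod_eq_sub_mod h1]
      exact h
  · rw [if_neg h, if_neg h]
    omega

/-- the third neighbour of a node in a cycle -/
def th (C i : ℕ) : ℕ :=
  if i % 3 = 2 then nA C + i / 3 else if i % 2 = 0 then nA C + nB C + (i % (6 * C)) / 6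
  else nA C + nB C + C

/-- a list of three containing all neighbours -/
def nb (cs : List Con) (i : ℕ) : ℕ × ℕ × ℕ :=
  if i < nA cs.length then (sc cs.length i, pr cs.length i, th cs.length i)
  else if i < nA cs.length + nB cs.length then
    (3 * (i - nA cs.length) + 2, 3 * (i - nA cs.length) + 2, 3 * (i - nA cs.length) + 2)
  else match cs[i - (nA cs.length + nB cs.length)]? with
    | none => (3, 6 * cs.length + 1, 3)
    | some e => (ps cs.length e.2.1 (i - (nA cs.length + nB cs.length))
        (if e.1 = true then 4 else 0),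
      ps cs.length e.2.2.1 (i - (nA cs.length + nB cs.length)) (if e.1 = true then 4 else 0),
      ps cs.length e.2.2.2 (i - (nA cs.length + nB cs.length)) (if e.1 = true then 0 else 4))

/-- membership in a triple -/
def InT (p : ℕ × ℕ × ℕ) (x : ℕ) : Prop := x = p.1 ∨ x = p.2.1 ∨ x = p.2.2

theorem ps_div {C v j t : ℕ} (hj : j < C) (ht : t < 6) : (ps C v j t % (6 * C)) / 6 = j := by
  unfold ps
  rw [Nat.add_assoc, Nat.mul_add_mod, Nat.mod_eq_of_lt (by omega)]
  omega

theorem FF_nb {cs : List Con} (hok : EqOk cs) : ∀ e ∈ FF cs, InT (nb cs e.1) e.2 ∧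
    InT (nb cs e.2) e.1 := by
  obtain ⟨hne, hb⟩ := hok
  have hC : 0 < cs.length := List.length_pos_iff.2 hne
  have hAB : nA cs.length = 3 * nB cs.length := nA_eq
  have h3A : 3 < nA cs.length := by
    have := lt_nA (C := cs.length) (v := 0) (s := 3) (by omega) (by omega)
    omega
  have h1A : 6 * cs.length + 1 < nA cs.length := by
    have := lt_nA (C := cs.length) (v := 1) (s := 1) (by omega) (by omega)
    omega
  intro e he
  rcases mem_FF.1 he with ⟨i, hi, rfl⟩ | ⟨q, hq, rfl⟩ | ⟨j, hj, he⟩ | rfl | rfl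
  · have hsc : sc cs.length i < nA cs.length := by
      obtain ⟨v, s, hv', hs, rfl⟩ := decomp hC hi
      by_cases hs1 : s + 1 < 6 * cs.length
      · rw [sc_lt hs1]; exact lt_nA hv' hs1
      · rw [sc_last (by omega)]; omega
    simp only
    unfold nb
    rw [if_pos hi, if_pos hsc]
    exact ⟨Or.inl rfl, Or.inr (Or.inl (pr_sc hC).symm)⟩
  · simp only
    unfold nb
    rw [if_pos (by omega), if_neg (by omega), if_pos (by omega)]
    refine ⟨Or.inr (Or.inr ?_), Or.inl ?_⟩
    · simp only
      unfold th
      rw [if_pos (by omega)]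
      omega
    · simp only
      omega
  · obtain ⟨b1, b2, b3⟩ := hb _ (List.getElem_mem hj)
    have hu : nb cs (nA cs.length + nB cs.length + j) =
        (ps cs.length cs[j].2.1 j (if cs[j].1 = true then 4 else 0),
        ps cs.length cs[j].2.2.1 j (if cs[j].1 = true then 4 else 0),
        ps cs.length cs[j].2.2.2 j (if cs[j].1 = true then 0 else 4)) := by
      unfold nb
      rw [if_neg (by omega), if_neg (by omega), Nat.add_sub_cancel_left,
        List.getElem?_eq_getElem hj]
    have hpt : ∀ v t, v < 2 * cs.length + 2 → (t = 0 ∨ t = 4) →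
        InT (nb cs (ps cs.length v j t)) (nA cs.length + nB cs.length + j) := by
      intro v t hv ht
      have h1 := ps_lt hv hj (t := t) (by omega)
      have h2 := ps_mod6 (C := cs.length) v j t
      unfold nb
      rw [if_pos h1]
      refine Or.inr (Or.inr ?_)
      simp only
      unfold th
      rw [if_neg (by omega), if_pos (by omega), ps_div hj (by omega)]
    unfold uE at he
    simp only [List.mem_cons, List.not_mem_nil, or_false] at he
    rcases he with rfl | rfl | rfl
    · simp only
      rw [hu]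
      exact ⟨Or.inl rfl, hpt _ _ b1 (by split_ifs <;> simp)⟩
    · simp only
      rw [hu]
      exact ⟨Or.inr (Or.inl rfl), hpt _ _ b2 (by split_ifs <;> simp)⟩
    · simp only
      rw [hu]
      exact ⟨Or.inr (Or.inr rfl), hpt _ _ b3 (by split_ifs <;> simp)⟩
  · simp only
    unfold nb
    rw [if_neg (by omega), if_neg (by omega), List.getElem?_eq_none (by omega), if_pos h3A]
    refine ⟨Or.inl rfl, Or.inr (Or.inr ?_)⟩
    simp only
    unfold th
    rw [if_neg (by omega), if_neg (by omega)]
  · simp only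
    unfold nb
    rw [if_neg (by omega), if_neg (by omega), List.getElem?_eq_none (by omega), if_pos h1A]
    refine ⟨Or.inr (Or.inl rfl), Or.inr (Or.inr ?_)⟩
    simp only
    unfold th
    rw [if_neg (by omega), if_neg (by omega)]

/-- the bipartition of the disjointness graph -/
def bp (C i : ℕ) : ℕ :=
  if i < nA C then i % 2 else if i < nA C + nB C then (i - nA C + 1) % 2
  else if i < nA C + nB C + C then 1 else 0

theorem FF_bp {cs : List Con} (hok : EqOk cs) : ∀ e ∈ FF cs,
    bp cs.length e.1 ≠ bp cs.length e.2 := by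
  obtain ⟨hne, hb⟩ := hok
  have hC : 0 < cs.length := List.length_pos_iff.2 hne
  have hAB : nA cs.length = 3 * nB cs.length := nA_eq
  have h3A : 3 < nA cs.length := by
    have := lt_nA (C := cs.length) (v := 0) (s := 3) (by omega) (by omega)
    omega
  have h1A : 6 * cs.length + 1 < nA cs.length := by
    have := lt_nA (C := cs.length) (v := 1) (s := 1) (by omega) (by omega)
    omega
  intro e he
  rcases mem_FF.1 he with ⟨i, hi, rfl⟩ | ⟨q, hq, rfl⟩ | ⟨j, hj, he⟩ | rfl | rfl
  · obtain ⟨v, s, hv', hs, rfl⟩ := decomp hC hi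
    have hX := add_mod6 (C := cs.length) v 0
    simp only
    by_cases hs1 : s + 1 < 6 * cs.length
    · have := lt_nA hv' hs1
      rw [sc_lt hs1]
      unfold bp
      rw [if_pos hi, if_pos this]
      omega
    · have hs2 : s + 1 = 6 * cs.length := by omega
      rw [sc_last hs2]
      unfold bp
      rw [if_pos hi, if_pos (by omega)]
      omega
  · simp only
    unfold bp
    rw [if_pos (by omega), if_neg (by omega), if_pos (by omega)]
    omega
  · obtain ⟨b1, b2, b3⟩ := hb _ (List.getElem_mem hj)
    have hu : bp cs.length (nA cs.length + nB cs.length + j) = 1 := by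
      unfold bp
      rw [if_neg (by omega), if_neg (by omega), if_pos (by omega)]
    have hpt : ∀ v t, v < 2 * cs.length + 2 → (t = 0 ∨ t = 4) →
        1 ≠ bp cs.length (ps cs.length v j t) := by
      intro v t hv ht
      have h1 := ps_lt hv hj (t := t) (by omega)
      have h2 := ps_mod6 (C := cs.length) v j t
      unfold bp
      rw [if_pos h1]
      omega
    unfold uE at he
    simp only [List.mem_cons, List.not_mem_nil, or_false] at he
    rcases he with rfl | rfl | rfl
    · simp only
      rw [hu]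
      exact hpt _ _ b1 (by split_ifs <;> simp)
    · simp only
      rw [hu]
      exact hpt _ _ b2 (by split_ifs <;> simp)
    · simp only
      rw [hu]
      exact hpt _ _ b3 (by split_ifs <;> simp)
  · simp only
    unfold bp
    rw [if_neg (by omega), if_neg (by omega), if_neg (by omega), if_pos (by omega)]
    omega
  · simp only
    unfold bp
    rw [if_neg (by omega), if_neg (by omega), if_neg (by omega), if_pos h1A]
    omega

theorem gam_colorable {cs : List Con} (hok : EqOk cs) :
    (Gam (kk cs.length) (FF cs)).Colorable 2 := by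
  refine ⟨SimpleGraph.Coloring.mk (fun i => ⟨bp cs.length i % 2, by omega⟩) ?_⟩
  have hbp : ∀ i, bp cs.length i < 2 := by
    intro i
    unfold bp
    split_ifs <;> omega
  intro i j hij h
  unfold Gam at hij
  rw [SimpleGraph.fromRel_adj] at hij
  rw [Fin.mk.injEq] at h
  have h1 := hbp i
  have h2 := hbp j
  have h3 : bp cs.length i = bp cs.length j := by omega
  rcases hij.2 with h4 | h4
  · exact FF_bp hok _ h4 h3
  · exact FF_bp hok _ h4 h3.symm

theorem gam_chromatic {cs : List Con} (hok : EqOk cs) :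
    (Gam (kk cs.length) (FF cs)).chromaticNumber ≤ 2 := by
  have := (gam_colorable hok).chromaticNumber_le
  exact_mod_cast this

theorem gam_clique {cs : List Con} (hok : EqOk cs) :
    (Gam (kk cs.length) (FF cs)).cliqueNum ≤ 2 := by
  obtain ⟨s, hs⟩ := (Gam (kk cs.length) (FF cs)).exists_isNClique_cliqueNum
  have h1 := hs.isClique.card_le_of_colorable (gam_colorable hok)
  rw [hs.card_eq] at h1
  exact h1

open Classical in
theorem gam_degree {cs : List Con} (hok : EqOk cs) :
    (Gam (kk cs.length) (FF cs)).maxDegree ≤ 3 := by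
  refine SimpleGraph.maxDegree_le_of_forall_degree_le _ _ fun i => ?_
  rw [← SimpleGraph.card_neighborFinset_eq_degree]
  have hsub : ((Gam (kk cs.length) (FF cs)).neighborFinset i).image (fun j : Fin _ => (j : ℕ)) ⊆
      {(nb cs i).1, (nb cs i).2.1, (nb cs i).2.2} := by
    intro x hx
    rw [Finset.mem_image] at hx
    obtain ⟨j, hj, rfl⟩ := hx
    rw [SimpleGraph.mem_neighborFinset] at hj
    unfold Gam at hj
    rw [SimpleGraph.fromRel_adj] at hj
    simp only [Finset.mem_insert, Finset.mem_singleton]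
    rcases hj.2 with h | h
    · exact (FF_nb hok _ h).1
    · exact (FF_nb hok _ h).2
  calc ((Gam (kk cs.length) (FF cs)).neighborFinset i).card
      = (((Gam (kk cs.length) (FF cs)).neighborFinset i).image (fun j : Fin _ => (j : ℕ))).card :=
        (Finset.card_image_of_injective _ Fin.val_injective).symm
    _ ≤ _ := Finset.card_le_card hsub
    _ ≤ 3 := Finset.card_le_three

open Classical in
theorem gam_all {cs : List Con} (hok : EqOk cs) {m : ℕ} (hm : m = kk cs.length) :
    (Gam m (FF cs)).maxDegree ≤ 3 ∧ (Gam m (FF cs)).chromaticNumber ≤ 2 ∧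
      (Gam m (FF cs)).cliqueNum ≤ 2 := by
  subst hm
  exact ⟨gam_degree hok, gam_chromatic hok, gam_clique hok⟩

end Pool.Agent.H673R2.Pdp
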