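import Pool.Agent.H673R2.PdpGeo
import Pool.Agent.H673R2.HardOn

/-!
# The reduction, and its computability in polynomial time
-/

namespace Pool.Agent.H673R2.Pdp

open Pool.Agent.NPC

/-- position of a pendant vertex -/
def pp (K g i : ℕ) : ℕ × ℕ :=
  (K * (pendC.getD g ((0, 0), (0, 0))).1.1 + i * (pendC.getD g ((0, 0), (0, 0))).2.1,
    K * (pendC.getD g ((0, 0), (0, 0))).1.2 + i * (pendC.getD g ((0, 0), (0, 0))).2.2)

/-- positions of the vertices -/
def posL (C : ℕ) : List (ℕ × ℕ) :=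
  (cV.map fun p => (kk C * p.1, kk C * p.2)) ++
  (List.range (2 * kk C)).map fun m => pp (kk C) (2 * ty C (m / 2) + m % 2) (m / 2)

theorem posL_length (C : ℕ) : (posL C).length = 11 + 2 * kk C := by
  unfold posL
  simp [cV]
  omega

theorem posL_core {C v : ℕ} (hv : v < 11) : (posL C).getD v (0, 0) =
    (kk C * (cV.getD v (0, 0)).1, kk C * (cV.getD v (0, 0)).2) := by
  have h1 : v < (cV.map fun p => (kk C * p.1, kk C * p.2)).length := by simpa [cV] using hv
  have h2 : v < cV.length := by simpa [cV] using hv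
  unfold posL
  rw [List.getD_append _ _ _ _ h1, List.getD_eq_getElem _ _ h1, List.getElem_map,
    List.getD_eq_getElem _ _ h2]

theorem posL_pend {C m : ℕ} (hm : m < 2 * kk C) : (posL C).getD (11 + m) (0, 0) =
    pp (kk C) (2 * ty C (m / 2) + m % 2) (m / 2) := by
  have h1 : (cV.map fun p => (kk C * p.1, kk C * p.2)).length = 11 := by simp [cV]
  unfold posL
  rw [List.getD_append_right _ _ _ _ (by rw [h1]; omega), h1, Nat.add_sub_cancel_left,
    List.getD_eq_getElem _ _ (by simpa using hm), List.getElem_map, List.getElem_range]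

theorem posOK (C : ℕ) : PosOK (kk C) (ty C) (posOf (posL C)) := by
  refine ⟨?_, ?_, ?_⟩
  · intro v hv
    unfold posOf PR
    rw [posL_core hv]
    push_cast
    rfl
  · intro i hi
    have h4 := ty_lt C i
    unfold posOf QR
    rw [posL_pend (by omega)]
    have h1 : 2 * i / 2 = i := by omega
    have h2 : 2 * i % 2 = 0 := by omega
    unfold pp cP dP
    rw [h1, h2, if_neg (by omega), if_neg (by omega)]
    have h3 : 16 + 2 * ty C i - 16 = 2 * ty C i + 0 := by omega
    rw [h3]
    push_cast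
    rfl
  · intro i hi
    have h4 := ty_lt C i
    have h5 : 12 + 2 * i = 11 + (2 * i + 1) := by omega
    unfold posOf QR
    rw [h5, posL_pend (by omega)]
    have h1 : (2 * i + 1) / 2 = i := by omega
    have h2 : (2 * i + 1) % 2 = 1 := by omega
    unfold pp cP dP
    rw [h1, h2, if_neg (by omega), if_neg (by omega)]
    have h3 : 17 + 2 * ty C i - 16 = 2 * ty C i + 1 := by omega
    rw [h3]
    push_cast
    rfl

theorem kk_pos (C : ℕ) : 0 < kk C := by unfold kk; omega

theorem wellFormed {cs : List Con} (hok : EqOk cs) :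
    WellFormed (11 + 2 * kk cs.length) (arcsOf (kk cs.length) (ty cs.length))
      (termsOf (kk cs.length)) (FF cs) := by
  refine ⟨?_, ?_, ?_, ?_⟩
  · intro a ha
    rcases mem_arcsOf.1 ha with h | ⟨i, hi, rfl | rfl⟩
    · have h1 := coreA_src a h
      have h2 : ∀ a ∈ coreA, a.1 ≠ a.2 := by decide
      have := h2 a h
      omega
    · have := ty_lt cs.length i
      simp only
      omega
    · have := ty_lt cs.length i
      simp only
      omega
  · intro t ht
    unfold termsOf at ht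
    rw [List.mem_map] at ht
    obtain ⟨i, hi, rfl⟩ := ht
    rw [List.mem_range] at hi
    simp only
    omega
  · intro e he
    rw [termsOf_length]
    obtain ⟨h1, h2, h3⟩ := FF_spec hok e he
    refine ⟨h1, h2, fun h => h3 (by rw [h])⟩
  · intro v hv
    exact incident hv

theorem distinctTerminals (k : ℕ) : DistinctTerminals (termsOf k) := by
  unfold DistinctTerminals termsOf
  rw [List.flatMap_map]
  have h : ∀ k, ((List.range k).flatMap fun i => [11 + 2 * i, 12 + 2 * i]) =
      (List.range (2 * k)).map fun m => 11 + m := by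
    intro k
    induction k with
    | zero => rfl
    | succ k ih =>
      have : 2 * (k + 1) = 2 * k + 1 + 1 := by ring
      rw [List.range_succ, List.flatMap_append, ih, this, List.range_succ, List.range_succ]
      simp
      omega
  have h' := h k
  simp only at h' ⊢
  rw [h']
  exact List.Nodup.map (fun a b h => by simpa using h) List.nodup_range

theorem solvable_FF {cs : List Con} (hok : EqOk cs) :
    EqSat cs ↔ Solvable (arcsOf (kk cs.length) (ty cs.length)) (termsOf (kk cs.length)) (FF cs) := by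
  rw [colSol_iff hok, solvable_iff (ty_lt _) (FF_spec hok)]
  rfl

theorem arcsOf_length (k : ℕ) (τ : ℕ → ℕ) : (arcsOf k τ).length = 16 + 2 * k := by
  unfold arcsOf
  simp [coreA]
  omega

theorem FF_length_le (cs : List Con) : (FF cs).length ≤ 11 + 2 * kk cs.length := by
  have h : ∀ (l : List Con) (C m : ℕ),
      ((l.zipIdx m).flatMap fun p => uE C p.1 p.2).length = 3 * l.length := by
    intro l C
    induction l with
    | nil => intro m; rfl
    | cons c l ih =>
      intro m
      rw [List.zipIdx_cons, List.flatMap_cons, List.length_append, ih, List.length_cons]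
      simp [uE]
      omega
  have h1 : cs.length ≤ nA cs.length := by
    unfold nA
    nlinarith
  unfold FF
  rw [List.length_append, List.length_append, List.length_append, h]
  simp only [List.length_map, List.length_range, List.length_cons, List.length_nil]
  unfold kk
  omega

/-! ### Polynomial time -/

section

variable {α : Type} [TEnc α]

theorem u_nA {n : α → ℕ} (hn : UPoly n) : UPoly (fun a => nA (n a)) :=
  UPoly.mul (UPoly.add (UPoly.mul (UPoly.const 2) hn) (UPoly.const 2))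
    (UPoly.mul (UPoly.const 6) hn)

theorem u_nB {n : α → ℕ} (hn : UPoly n) : UPoly (fun a => nB (n a)) :=
  UPoly.mul (UPoly.add (UPoly.mul (UPoly.const 2) hn) (UPoly.const 2))
    (UPoly.mul (UPoly.const 2) hn)

theorem u_kk {n : α → ℕ} (hn : UPoly n) : UPoly (fun a => kk (n a)) :=
  UPoly.add (UPoly.add (UPoly.add (u_nA hn) (u_nB hn)) hn) (UPoly.const 1)

theorem p_ty {n i : α → ℕ} (hn : UPoly n) (hi : Poly i) : Poly (fun a => ty (n a) (i a)) := by
  unfold ty
  exact Poly.ite (Poly.decide_lt hi (u_nA hn).toPoly) (Poly.mod hi (NPC.Poly.const 3))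
    (Poly.ite (Poly.decide_lt hi (UPoly.add (u_nA hn) (u_nB hn)).toPoly) (NPC.Poly.const 3)
      (Poly.ite (Poly.decide_lt hi (UPoly.add (UPoly.add (u_nA hn) (u_nB hn)) hn).toPoly)
        (NPC.Poly.const 2) (NPC.Poly.const 3)))

theorem p_pend {g : α → ℕ} (hg : Poly g) :
    Poly (fun a => pendC.getD (g a) ((0, 0), (0, 0))) :=
  Poly.getD (NPC.Poly.const _) hg (NPC.Poly.const _)

theorem p_pp {K g i : α → ℕ} (hK : Poly K) (hg : Poly g) (hi : Poly i) :
    Poly (fun a => pp (K a) (g a) (i a)) := by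
  have h := p_pend hg
  exact Poly.pair
    (NPC.Poly.add (NPC.Poly.mul hK (Poly.fst (Poly.fst h))) (NPC.Poly.mul hi (Poly.fst (Poly.snd h))))
    (NPC.Poly.add (NPC.Poly.mul hK (Poly.snd (Poly.fst h))) (NPC.Poly.mul hi (Poly.snd (Poly.snd h))))

theorem p_posL {n : α → ℕ} (hn : UPoly n) : Poly (fun a => posL (n a)) := by
  refine Poly.append (NPC.Poly.map (l := fun _ => cV) (F := fun a p => (kk (n a) * p.1, kk (n a) * p.2))
    (NPC.Poly.const cV) ?_) (NPC.Poly.map (F := fun a m => pp (kk (n a)) (2 * ty (n a) (m / 2) + m % 2) (m / 2))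
      (UPoly.mul (UPoly.const 2) (u_kk hn)).range ?_)
  · have hk : Poly (fun p : α × ℕ × ℕ => kk (n p.1)) := ((u_kk hn).comp (Poly.fst Poly.id)).toPoly
    exact Poly.pair (NPC.Poly.mul hk (Poly.fst (Poly.snd Poly.id)))
      (NPC.Poly.mul hk (Poly.snd (Poly.snd Poly.id)))
  · have hn' : UPoly (fun p : α × ℕ => n p.1) := hn.comp (Poly.fst Poly.id)
    have hm : Poly (fun p : α × ℕ => p.2) := Poly.snd Poly.id
    have hm2 := Poly.div hm (NPC.Poly.const 2)
    exact p_pp (u_kk hn').toPoly (NPC.Poly.add (NPC.Poly.mul (NPC.Poly.const 2) (p_ty hn' hm2))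
      (Poly.mod hm (NPC.Poly.const 2))) hm2

theorem p_arcs {n : α → ℕ} (hn : UPoly n) : Poly (fun a => arcsOf (kk (n a)) (ty (n a))) := by
  refine Poly.append (NPC.Poly.const _) (Poly.flatMap
    (F := fun a i => [(11 + 2 * i, 3 + 2 * ty (n a) i), (4 + 2 * ty (n a) i, 12 + 2 * i)])
    (u_kk hn).range ?_)
  have hn' : UPoly (fun p : α × ℕ => n p.1) := hn.comp (Poly.fst Poly.id)
  have hm : Poly (fun p : α × ℕ => p.2) := Poly.snd Poly.id
  have h2m := NPC.Poly.mul (NPC.Poly.const 2) hm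
  have h2t := NPC.Poly.mul (NPC.Poly.const 2) (p_ty hn' hm)
  exact Poly.cons (Poly.pair (NPC.Poly.add (NPC.Poly.const 11) h2m) (NPC.Poly.add (NPC.Poly.const 3) h2t))
    (Poly.cons (Poly.pair (NPC.Poly.add (NPC.Poly.const 4) h2t) (NPC.Poly.add (NPC.Poly.const 12) h2m))
      (NPC.Poly.const _))

theorem p_terms {n : α → ℕ} (hn : UPoly n) : Poly (fun a => termsOf (kk (n a))) := by
  refine NPC.Poly.map (F := fun _ i => (11 + 2 * i, 12 + 2 * i)) (u_kk hn).range ?_
  have hm : Poly (fun p : α × ℕ => p.2) := Poly.snd Poly.id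
  have h2m := NPC.Poly.mul (NPC.Poly.const 2) hm
  exact Poly.pair (NPC.Poly.add (NPC.Poly.const 11) h2m) (NPC.Poly.add (NPC.Poly.const 12) h2m)

theorem p_ps {n v j t : α → ℕ} (hn : UPoly n) (hv : Poly v) (hj : Poly j) (ht : Poly t) :
    Poly (fun a => ps (n a) (v a) (j a) (t a)) :=
  NPC.Poly.add (NPC.Poly.add (NPC.Poly.mul (NPC.Poly.mul (NPC.Poly.const 6) hn.toPoly) hv)
    (NPC.Poly.mul (NPC.Poly.const 6) hj)) ht

theorem p_sc {n i : α → ℕ} (hn : UPoly n) (hi : Poly i) : Poly (fun a => sc (n a) (i a)) := by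
  have h1 := NPC.Poly.add hi (NPC.Poly.const 1)
  have h6 := NPC.Poly.mul (NPC.Poly.const 6) hn.toPoly
  exact Poly.ite (Poly.decide_eq (Poly.mod h1 h6) (NPC.Poly.const 0)) (NPC.Poly.sub h1 h6) h1

theorem p_uE {n j : α → ℕ} {e : α → Con} (hn : UPoly n) (he : Poly e) (hj : Poly j) :
    Poly (fun a => uE (n a) (e a) (j a)) := by
  have hAB := (UPoly.add (u_nA hn) (u_nB hn)).toPoly
  have hu := NPC.Poly.add hAB hj
  have h4 : Poly (fun a => if (e a).1 = true then 4 else 0) :=
    Poly.ite (Poly.decide_bool (Poly.fst he)) (NPC.Poly.const 4) (NPC.Poly.const 0)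
  have h0 : Poly (fun a => if (e a).1 = true then 0 else 4) :=
    Poly.ite (Poly.decide_bool (Poly.fst he)) (NPC.Poly.const 0) (NPC.Poly.const 4)
  unfold uE
  exact Poly.cons (Poly.pair hu (p_ps hn (Poly.fst (Poly.snd he)) hj h4))
    (Poly.cons (Poly.pair hu (p_ps hn (Poly.fst (Poly.snd (Poly.snd he))) hj h4))
      (Poly.cons (Poly.pair hu (p_ps hn (Poly.snd (Poly.snd (Poly.snd he))) hj h0))
        (NPC.Poly.const _)))

end

theorem p_FF : Poly FF := by
  have hn : UPoly (fun cs : List Con => cs.length) := UPoly.length Poly.id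
  have hn' : UPoly (fun p : List Con × ℕ => p.1.length) := hn.comp (Poly.fst Poly.id)
  have hm : Poly (fun p : List Con × ℕ => p.2) := Poly.snd Poly.id
  unfold FF
  refine Poly.append (NPC.Poly.map (F := fun (cs : List Con) (i : ℕ) => (i, sc cs.length i))
    (u_nA hn).range (Poly.pair hm (p_sc hn' hm))) (Poly.append
    (NPC.Poly.map (F := fun (cs : List Con) (q : ℕ) => (3 * q + 2, nA cs.length + q))
      (u_nB hn).range (Poly.pair (NPC.Poly.add (NPC.Poly.mul (NPC.Poly.const 3) hm) (NPC.Poly.const 2))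
        (NPC.Poly.add (u_nA hn').toPoly hm))) (Poly.append
    (Poly.flatMap (F := fun (cs : List Con) (p : Con × ℕ) => uE cs.length p.1 p.2)
      (Poly.zipIdx Poly.id) ?_) ?_))
  · exact p_uE (hn.comp (Poly.fst Poly.id)) (Poly.fst (Poly.snd Poly.id))
      (Poly.snd (Poly.snd Poly.id))
  · have hu := (UPoly.add (UPoly.add (u_nA hn) (u_nB hn)) hn).toPoly
    exact Poly.cons (Poly.pair hu (NPC.Poly.const 3)) (Poly.cons (Poly.pair hu
      (NPC.Poly.add (NPC.Poly.mul (NPC.Poly.const 6) hn.toPoly) (NPC.Poly.const 1)))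
      (NPC.Poly.const _))

theorem p_toCons : Poly toCons := by
  have hz : Poly (fun φ : F3 => φ.zipIdx) := Poly.zipIdx Poly.id
  refine Poly.flatMap (F := fun (φ : F3) (p : (Lit ℕ × Lit ℕ × Lit ℕ) × ℕ) =>
    [(!p.1.1.1, 0, 2 + 3 * φ.length + 2 * p.2, 2 + p.1.1.2),
     (!p.1.2.1.1, 2 + 3 * φ.length + 2 * p.2, 3 + 3 * φ.length + 2 * p.2, 2 + p.1.2.1.2),
     (!p.1.2.2.1, 3 + 3 * φ.length + 2 * p.2, 1, 2 + p.1.2.2.2)]) hz ?_
  have hφ : Poly (fun q : F3 × (Lit ℕ × Lit ℕ × Lit ℕ) × ℕ => q.1.length) :=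
    Poly.length (Poly.fst Poly.id)
  have hc : Poly (fun q : F3 × (Lit ℕ × Lit ℕ × Lit ℕ) × ℕ => q.2.1) := Poly.fst (Poly.snd Poly.id)
  have hm : Poly (fun q : F3 × (Lit ℕ × Lit ℕ × Lit ℕ) × ℕ => q.2.2) := Poly.snd (Poly.snd Poly.id)
  have h3 := NPC.Poly.mul (NPC.Poly.const 3) hφ
  have h2 := NPC.Poly.mul (NPC.Poly.const 2) hm
  have w1 := NPC.Poly.add (NPC.Poly.add (NPC.Poly.const 2) h3) h2
  have w2 := NPC.Poly.add (NPC.Poly.add (NPC.Poly.const 3) h3) h2
  exact Poly.cons (Poly.pair (Poly.not (Poly.fst (Poly.fst hc))) (Poly.pair (NPC.Poly.const 0)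
      (Poly.pair w1 (NPC.Poly.add (NPC.Poly.const 2) (Poly.snd (Poly.fst hc))))))
    (Poly.cons (Poly.pair (Poly.not (Poly.fst (Poly.fst (Poly.snd hc)))) (Poly.pair w1
      (Poly.pair w2 (NPC.Poly.add (NPC.Poly.const 2) (Poly.snd (Poly.fst (Poly.snd hc)))))))
    (Poly.cons (Poly.pair (Poly.not (Poly.fst (Poly.snd (Poly.snd hc)))) (Poly.pair w2
      (Poly.pair (NPC.Poly.const 1) (NPC.Poly.add (NPC.Poly.const 2)
        (Poly.snd (Poly.snd (Poly.snd hc))))))) (NPC.Poly.const _)))

/-- satisfiability of constraints is hard -/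
theorem hardPr_EqSat : HardPr EqOk EqSat :=
  hardPr_SAT3b.trans p_toCons (fun _ h => eqOk_toCons h.2.1 h.2.2)
    (fun _ h => eqSat_toCons h.2.1)

end Pool.Agent.H673R2.Pdp
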