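import Mathlib

/-!
# Tree t-spanners: definitions
-/

namespace Pool.Agent.H673R2.Ts

/-- `T` is a tree `t`-spanner of `G`: a spanning tree of `G` such that the distance of any two
vertices in `T` is at most `t` times their distance in `G`. -/
def IsTreeSpanner {V : Type} (t : ℕ) (G T : SimpleGraph V) : Prop :=
  T ≤ G ∧ T.IsTree ∧ ∀ x y : V, T.dist x y ≤ t * G.dist x y

/-- A graph is given by the number `n` of its vertices (the vertices are `0, …, n-1`) and the list
of its edges. -/
abbrev Inst : Type := ℕ × List (ℕ × ℕ)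

/-- The graph given by `I`. -/
def graphOf (I : Inst) : SimpleGraph (Fin I.1) :=
  SimpleGraph.fromRel fun x y => ((x : ℕ), (y : ℕ)) ∈ I.2

/-- The instance is well formed (every edge `{x, y}` is listed once, as the pair `(x, y)` with
`x < y`) and the graph is connected. -/
def Valid (I : Inst) : Prop :=
  I.2.Nodup ∧ (∀ e ∈ I.2, e.1 < e.2 ∧ e.2 < I.1) ∧ (graphOf I).Connected

/-- The graph has a tree `t`-spanner. -/
def HasTreeSpanner (t : ℕ) (I : Inst) : Prop :=
  ∃ T : SimpleGraph (Fin I.1), IsTreeSpanner t (graphOf I) T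

end Pool.Agent.H673R2.Ts
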