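import Pool.Agent.H673R2.TsRed
import Pool.Agent.H673R2.PdpPoly

/-!
# Tree 3-spanners: the reduction is correct and polynomial
-/

namespace Pool.Agent.H673R2.Ts

open Pool.Agent.NPC Pool.Agent.H673R2.Pdp

/-- the vertex number `k`, or `0` -/
def vv (cs : List Con) (k : ℕ) : Fin (instOf cs).1 :=
  if h : k < 8 * cs.length + 16 then ⟨k, h⟩ else ⟨0, by unfold instOf; omega⟩

theorem vv_val {cs : List Con} {k : ℕ} (h : k < 8 * cs.length + 16) : (vv cs k : ℕ) = k := by
  unfold vv
  rw [dif_pos h]

theorem vv_self {cs : List Con} (x : Fin (instOf cs).1) : vv cs (x : ℕ) = x := by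
  ext
  exact vv_val x.2

theorem forward {cs : List Con} (hok : EqOk2 cs) (h : EqSat cs) :
    HasTreeSpanner 3 (instOf cs) ∧ (graphOf (instOf cs)).Connected := by
  obtain ⟨val, h0, h1, hv⟩ := h
  let P : Fin (instOf cs).1 → Fin (instOf cs).1 := fun x => vv cs (par cs val x)
  have hP : ∀ x : Fin (instOf cs).1, (P x : ℕ) = par cs val x := fun x => vv_val (par_lt x.2)
  have h00 : ((vv cs 0 : Fin (instOf cs).1) : ℕ) = 0 := vv_val (by omega)
  have hne0 : ∀ x : Fin (instOf cs).1, x ≠ vv cs 0 → (x : ℕ) ≠ 0 := by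
    intro x hx h'
    apply hx
    ext
    rw [h00, h']
  have hT := isTree_of_parent (vv cs 0) P (fun x => lev cs val x) (by
    intro x hx
    rw [hP]
    exact lev_par x.2 (hne0 x hx))
  set T := SimpleGraph.fromRel fun x y : Fin (instOf cs).1 => x ≠ vv cs 0 ∧ y = P x with hTd
  have hle : T ≤ graphOf (instOf cs) := by
    intro x y hxy
    rw [hTd, SimpleGraph.fromRel_adj] at hxy
    rw [adj_iff]
    refine ⟨hxy.1, ?_⟩
    rcases hxy.2 with ⟨h2, h3⟩ | ⟨h2, h3⟩
    · rw [h3, hP]
      exact (par_edge h0 h1 x.2 (hne0 x h2)).symm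
    · rw [h3, hP]
      exact par_edge h0 h1 y.2 (hne0 y h2)
  have hG : (graphOf (instOf cs)).Connected := hT.connected.mono hle
  refine ⟨⟨T, hle, hT, ?_⟩, hG⟩
  refine stretch_of_adj hG hT.connected ?_
  have hd := edge_dist hok h0 h1 hv (d := fun x y => T.dist (vv cs x) (vv cs y))
    (fun x => SimpleGraph.dist_self) (fun x y => SimpleGraph.dist_comm)
    (fun x y z => hT.connected.dist_triangle) (by
      intro x hx hx0
      have hadj : T.Adj (vv cs x) (vv cs (par cs val x)) := by
        rw [hTd, SimpleGraph.fromRel_adj]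
        refine ⟨fun h' => ?_, Or.inl ⟨fun h' => ?_, ?_⟩⟩
        · have := congrArg Fin.val h'
          rw [vv_val hx, vv_val (par_lt hx)] at this
          have h4 := lev_par (val := val) hx hx0
          rw [← this] at h4
          omega
        · have := congrArg Fin.val h'
          rw [vv_val hx, h00] at this
          exact hx0 this
        · simp only [P]
          rw [vv_val hx]
      exact le_of_eq (SimpleGraph.dist_eq_one_iff_adj.2 hadj))
  intro x y hxy
  rw [adj_iff] at hxy
  rcases hxy.2 with h | h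
  · have := hd _ h
    simp only [vv_self] at this
    exact this
  · have := hd _ h
    simp only [vv_self] at this
    rw [SimpleGraph.dist_comm]
    exact this

theorem nodup_fc {x y s : ℕ} (h : x < y) (hys : y < s) : (fc x y s).Nodup := by
  unfold fc
  simp only [List.nodup_cons, List.mem_cons, Prod.mk.injEq, List.not_mem_nil, or_false]
  refine ⟨?_, ?_, ?_, ?_, ?_, ?_, ?_⟩
  all_goals first | omega | simp

theorem nodup_edges {cs : List Con} (hok : EqOk2 cs) : (edgesOf cs).Nodup := by
  have hfc : ∀ {x y s : ℕ} {z : ℕ × ℕ}, z ∈ fc x y s → x < y → y < s →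
      (z.1 = x ∧ z.2 = y) ∨ (s ≤ z.2 ∧ z.2 ≤ s + 3) := by
    intro x y s z hz h1 h2
    rcases mem_fc.1 hz with rfl | rfl | rfl | rfl | rfl | rfl | rfl <;> simp only <;>
      first | omega | simp
  have hve : ∀ {i : ℕ} {z : ℕ × ℕ}, z ∈ ve i → z.1 < 4 ∧ z.2 = 4 + i := by
    intro i z hz
    rcases mem_ve.1 hz with rfl | rfl | rfl | rfl <;> simp
  have hbk : ∀ {j : ℕ} (hj : j < cs.length) {z : ℕ × ℕ},
      z ∈ blk (2 * cs.length + 16 + 6 * j) cs[j] →
      2 * cs.length + 16 + 6 * j ≤ z.2 ∧ z.2 < 2 * cs.length + 16 + 6 * j + 6 := by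
    intro j hj z hz
    have h1 := hok.1.2 _ (List.getElem_mem hj)
    have h2 := cst_cases cs[j].1
    rcases mem_blk.1 hz with h | h
    · rcases mem_fc.1 h with rfl | rfl | rfl | rfl | rfl | rfl | rfl <;> simp only <;> omega
    · rcases h with rfl | rfl | rfl | rfl | rfl | rfl | rfl | rfl <;> simp only <;> omega
  have hbk' : ∀ {p : Con × ℕ} {z : ℕ × ℕ}, p ∈ cs.zipIdx →
      z ∈ blk (2 * cs.length + 16 + 6 * p.2) p.1 →
      2 * cs.length + 16 + 6 * p.2 ≤ z.2 ∧ z.2 < 2 * cs.length + 16 + 6 * p.2 + 6 := by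
    rintro ⟨e, j⟩ z hp hz
    rw [List.mem_zipIdx_iff_getElem?] at hp
    simp only at hp hz ⊢
    obtain ⟨h, rfl⟩ := List.getElem?_eq_some_iff.1 hp
    exact hbk h hz
  unfold edgesOf
  rw [List.nodup_append', List.nodup_append', List.nodup_append', List.nodup_append']
  refine ⟨⟨⟨⟨nodup_fc (by omega) (by omega), nodup_fc (by omega) (by omega), ?_⟩,
    nodup_fc (by omega) (by omega), ?_⟩, ?_, ?_⟩, ?_, ?_⟩
  · intro z h1 h2
    have a := hfc h1 (by omega) (by omega)
    have b := hfc h2 (by omega) (by omega)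
    omega
  · intro z h1 h2
    have b := hfc h2 (by omega) (by omega)
    rcases List.mem_append.1 h1 with h1 | h1
    · have a := hfc h1 (by omega) (by omega)
      omega
    · have a := hfc h1 (by omega) (by omega)
      omega
  · rw [List.nodup_flatMap]
    refine ⟨?_, ?_⟩
    · intro i _
      unfold ve
      simp
    · refine List.Pairwise.imp (R := fun a b : ℕ => a ≠ b) ?_ List.nodup_range
      intro a b hab z h1 h2
      have := hve h1
      have := hve h2
      omega
  · intro z h1 h2
    obtain ⟨i, hi, h2⟩ := List.mem_flatMap.1 h2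
    rw [List.mem_range] at hi
    have b := hve h2
    rcases List.mem_append.1 h1 with h1 | h1
    · rcases List.mem_append.1 h1 with h1 | h1
      · have a := hfc h1 (by omega) (by omega)
        omega
      · have a := hfc h1 (by omega) (by omega)
        omega
    · have a := hfc h1 (by omega) (by omega)
      omega
  · rw [List.nodup_flatMap]
    refine ⟨?_, ?_⟩
    · rintro ⟨e, j⟩ hp
      rw [List.mem_zipIdx_iff_getElem?] at hp
      simp only at hp ⊢
      obtain ⟨h, rfl⟩ := List.getElem?_eq_some_iff.1 hp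
      have h1 := hok.1.2 _ (List.getElem_mem h)
      have h2 := cst_cases cs[j].1
      have h3 := hok.2 _ (List.getElem_mem h)
      unfold blk
      rw [List.nodup_append']
      refine ⟨nodup_fc (by omega) (by omega), ?_, ?_⟩
      · simp only [List.nodup_cons, List.mem_cons, Prod.mk.injEq, List.not_mem_nil, or_false]
        refine ⟨?_, ?_, ?_, ?_, ?_, ?_, ?_, ?_⟩
        all_goals first | omega | simp
      · intro z hz1 hz2
        have a := hfc hz1 (by omega) (by omega)
        simp only [List.mem_cons, List.not_mem_nil, or_false] at hz2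
        revert a
        rcases hz2 with rfl | rfl | rfl | rfl | rfl | rfl | rfl | rfl <;> simp only <;> omega
    · have hnd : (cs.zipIdx.map Prod.snd).Nodup := by
        rw [List.zipIdx_map_snd]
        exact List.nodup_range'
      rw [List.Nodup, List.pairwise_map] at hnd
      refine List.Pairwise.imp_of_mem ?_ hnd
      intro p q hp hq hpq z h1 h2
      have a := hbk' hp h1
      have b := hbk' hq h2
      omega
  · intro z h1 h2
    obtain ⟨p, hp, h2⟩ := List.mem_flatMap.1 h2
    have b := hbk' hp h2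
    rcases List.mem_append.1 h1 with h1 | h1
    · rcases List.mem_append.1 h1 with h1 | h1
      · rcases List.mem_append.1 h1 with h1 | h1
        · have a := hfc h1 (by omega) (by omega)
          omega
        · have a := hfc h1 (by omega) (by omega)
          omega
      · have a := hfc h1 (by omega) (by omega)
        omega
    · obtain ⟨i, hi, h1⟩ := List.mem_flatMap.1 h1
      rw [List.mem_range] at hi
      have a := hve h1
      omega

/-- The graph is connected. -/
theorem connected {cs : List Con} (hok : EqOk2 cs) : (graphOf (instOf cs)).Connected := by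
  have : EqOk2 (cs.map fun e => e) := by simpa using hok
  -- every vertex has a smaller neighbour, or is `0`
  have hdown : ∀ x < 8 * cs.length + 16, x ≠ 0 → ∃ y < x, (y, x) ∈ edgesOf cs := by
    intro x hx hx0
    rcases vcases hx with rfl | rfl | ⟨i, hi, rfl⟩ | ⟨k, hk, rfl⟩ | ⟨j, hj, k, hk, rfl⟩
    · exact absurd rfl hx0
    · exact ⟨0, by omega, mem_edgesOf.2 (Or.inl (mem_fc.2 (Or.inl rfl)))⟩
    · by_cases hi0 : i = 0
      · subst hi0
        exact ⟨0, by omega, mem_edgesOf.2 (Or.inr (Or.inl (mem_fc.2 (Or.inl rfl))))⟩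
      by_cases hi1 : i = 1
      · subst hi1
        exact ⟨1, by omega, mem_edgesOf.2 (Or.inr (Or.inr (Or.inl (mem_fc.2 (Or.inl rfl)))))⟩
      · refine ⟨0, by omega, mem_edgesOf.2 (Or.inr (Or.inr (Or.inr (Or.inl ⟨i - 2, by omega,
          mem_ve.2 (Or.inl ?_)⟩))))⟩
        rw [Prod.mk.injEq]
        omega
    · have hbp := bpar_lt hk
      refine ⟨bpar k, by omega, ?_⟩
      interval_cases k
      · exact (mem_edgesOf.2 (Or.inl (mem_fc.2 (by simp [bpar]))))
      · exact (mem_edgesOf.2 (Or.inl (mem_fc.2 (by simp [bpar]))))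
      · exact (mem_edgesOf.2 (Or.inl (mem_fc.2 (by simp [bpar]))))
      · exact (mem_edgesOf.2 (Or.inl (mem_fc.2 (by simp [bpar]))))
      · exact (mem_edgesOf.2 (Or.inr (Or.inl (mem_fc.2 (by simp [bpar])))))
      · exact (mem_edgesOf.2 (Or.inr (Or.inl (mem_fc.2 (by simp [bpar])))))
      · exact (mem_edgesOf.2 (Or.inr (Or.inl (mem_fc.2 (by simp [bpar])))))
      · exact (mem_edgesOf.2 (Or.inr (Or.inl (mem_fc.2 (by simp [bpar])))))
      · exact (mem_edgesOf.2 (Or.inr (Or.inr (Or.inl (mem_fc.2 (by simp [bpar]))))))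
      · exact (mem_edgesOf.2 (Or.inr (Or.inr (Or.inl (mem_fc.2 (by simp [bpar]))))))
      · exact (mem_edgesOf.2 (Or.inr (Or.inr (Or.inl (mem_fc.2 (by simp [bpar]))))))
      · exact (mem_edgesOf.2 (Or.inr (Or.inr (Or.inl (mem_fc.2 (by simp [bpar]))))))
    · have hf : ∀ z ∈ fc (2 * cs.length + 16 + 6 * j) (2 * cs.length + 16 + 6 * j + 1)
          (2 * cs.length + 16 + 6 * j + 2), z ∈ edgesOf cs := fc_ab hj
      by_cases hk2 : k < 2
      · refine ⟨0, by omega, blk_mem hj (mem_blk.2 ?_)⟩
        have : k = 0 ∨ k = 1 := by omega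
        rcases this with rfl | rfl <;> simp
      by_cases hk3 : k = 3 ∨ k = 5
      · refine ⟨2 * cs.length + 16 + 6 * j + 1, by omega, hf _ (mem_fc.2 ?_)⟩
        rcases hk3 with rfl | rfl <;> simp
      · refine ⟨2 * cs.length + 16 + 6 * j, by omega, hf _ (mem_fc.2 ?_)⟩
        have : k = 2 ∨ k = 4 := by omega
        rcases this with rfl | rfl <;> simp
  have hreach : ∀ n (x : Fin (instOf cs).1), (x : ℕ) = n →
      (graphOf (instOf cs)).Reachable (vv cs 0) x := by
    intro n
    induction n using Nat.strong_induction_on with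
    | _ n ih =>
      intro x hx
      by_cases hx0 : (x : ℕ) = 0
      · have : x = vv cs 0 := by
          ext
          rw [hx0, vv_val (by omega)]
        rw [this]
      · obtain ⟨y, hy, he⟩ := hdown x x.2 hx0
        have hyl : y < 8 * cs.length + 16 := lt_trans hy x.2
        have h1 := ih y (by omega) (vv cs y) (vv_val hyl)
        refine h1.trans (SimpleGraph.Adj.reachable (adj_of hok ?_))
        rw [vv_val hyl]
        exact he
  have : Nonempty (Fin (instOf cs).1) := ⟨vv cs 0⟩
  refine SimpleGraph.Connected.mk ?_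
  intro x y
  exact (hreach _ x rfl).symm.trans (hreach _ y rfl)

theorem valid {cs : List Con} (hok : EqOk2 cs) : Valid (instOf cs) :=
  ⟨nodup_edges hok, fun _ he => edge_bound hok he, connected hok⟩

theorem hasTreeSpanner_iff {cs : List Con} (hok : EqOk2 cs) :
    EqSat cs ↔ HasTreeSpanner 3 (instOf cs) :=
  ⟨fun h => (forward hok h).1, back hok⟩

/-! ### Polynomial time -/

section

variable {α : Type} [TEnc α]

theorem p_fc {x y s : α → ℕ} (hx : Poly x) (hy : Poly y) (hs : Poly s) :
    Poly (fun a => fc (x a) (y a) (s a)) := by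
  have h1 := NPC.Poly.add hs (NPC.Poly.const 1)
  have h2 := NPC.Poly.add hs (NPC.Poly.const 2)
  have h3 := NPC.Poly.add hs (NPC.Poly.const 3)
  exact Poly.cons (Poly.pair hx hy) (Poly.cons (Poly.pair hx hs) (Poly.cons (Poly.pair hs h1)
    (Poly.cons (Poly.pair hy h1) (Poly.cons (Poly.pair hx h2) (Poly.cons (Poly.pair h2 h3)
      (Poly.cons (Poly.pair hy h3) (NPC.Poly.const _)))))))

theorem p_ve {i : α → ℕ} (hi : Poly i) : Poly (fun a => ve (i a)) := by
  have h4 := NPC.Poly.add (NPC.Poly.const 4) hi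
  exact Poly.cons (Poly.pair (NPC.Poly.const 0) h4) (Poly.cons (Poly.pair (NPC.Poly.const 1) h4)
    (Poly.cons (Poly.pair (NPC.Poly.const 2) h4) (Poly.cons (Poly.pair (NPC.Poly.const 3) h4)
      (NPC.Poly.const _))))

theorem p_blk {n : α → ℕ} {e : α → Con} (hn : Poly n) (he : Poly e) :
    Poly (fun a => blk (n a) (e a)) := by
  have h1 := NPC.Poly.add hn (NPC.Poly.const 1)
  have h2 := NPC.Poly.add hn (NPC.Poly.const 2)
  have q1 := NPC.Poly.add (NPC.Poly.const 2) (Poly.fst (Poly.snd he))
  have q2 := NPC.Poly.add (NPC.Poly.const 2) (Poly.fst (Poly.snd (Poly.snd he)))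
  have q3 := NPC.Poly.add (NPC.Poly.const 2) (Poly.snd (Poly.snd (Poly.snd he)))
  have q4 : Poly (fun a => cst (e a).1) :=
    (NPC.Poly.cond (Poly.fst he) (NPC.Poly.const 3) (NPC.Poly.const 2)).congr fun a => by
      cases h : (e a).1 <;> simp [cst]
  exact Poly.append (p_fc hn h1 h2) (Poly.cons (Poly.pair (NPC.Poly.const 0) hn)
    (Poly.cons (Poly.pair (NPC.Poly.const 1) hn) (Poly.cons (Poly.pair (NPC.Poly.const 0) h1)
    (Poly.cons (Poly.pair (NPC.Poly.const 1) h1) (Poly.cons (Poly.pair q1 hn)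
    (Poly.cons (Poly.pair q2 hn) (Poly.cons (Poly.pair q3 h1) (Poly.cons (Poly.pair q4 h1)
      (NPC.Poly.const _)))))))))

end

theorem p_inst : Poly instOf := by
  have hn : UPoly (fun cs : List Con => cs.length) := UPoly.length Poly.id
  have hn' : Poly (fun p : List Con × Con × ℕ => p.1.length) :=
    (hn.comp (Poly.fst Poly.id)).toPoly
  have h2 := NPC.Poly.mul (NPC.Poly.const 2) hn.toPoly
  refine Poly.pair (NPC.Poly.add (NPC.Poly.mul (NPC.Poly.const 8) hn.toPoly) (NPC.Poly.const 16)) ?_
  refine Poly.append (Poly.append (Poly.append (Poly.append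
    (p_fc (NPC.Poly.const 0) (NPC.Poly.const 1) (NPC.Poly.add h2 (NPC.Poly.const 4)))
    (p_fc (NPC.Poly.const 0) (NPC.Poly.const 2) (NPC.Poly.add h2 (NPC.Poly.const 8))))
    (p_fc (NPC.Poly.const 1) (NPC.Poly.const 3) (NPC.Poly.add h2 (NPC.Poly.const 12))))
    (Poly.flatMap (F := fun (_ : List Con) (i : ℕ) => ve i)
      (UPoly.mul (UPoly.const 2) hn).range (p_ve (Poly.snd Poly.id))))
    (Poly.flatMap (F := fun (cs : List Con) (p : Con × ℕ) =>
      blk (2 * cs.length + 16 + 6 * p.2) p.1) (Poly.zipIdx Poly.id) ?_)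
  exact p_blk (NPC.Poly.add (NPC.Poly.add (NPC.Poly.mul (NPC.Poly.const 2) hn')
    (NPC.Poly.const 16)) (NPC.Poly.mul (NPC.Poly.const 6) (Poly.snd (Poly.snd Poly.id))))
    (Poly.fst (Poly.snd Poly.id))

theorem eqOk2_toCons {φ : F3} (hb : Bounded3 φ) (hne : φ ≠ []) : EqOk2 (toCons φ) := by
  refine ⟨eqOk_toCons hb hne, ?_⟩
  intro e he
  obtain ⟨m, hm, h⟩ := mem_toCons.1 he
  rcases h with rfl | rfl | rfl
  · simp only
    omega
  · simp only
    omega
  · simp only
    omega

/-- satisfiability of nontrivial constraints is hard -/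
theorem hardPr_EqSat2 : HardPr EqOk2 EqSat :=
  hardPr_SAT3b.trans p_toCons (fun _ h => eqOk2_toCons h.2.1 h.2.2)
    (fun _ h => eqSat_toCons h.2.1)

theorem main : NPHardOn Valid (HasTreeSpanner 3) :=
  npHardOn_of hardPr_EqSat2 p_inst (fun _ h => valid h) (fun _ h => hasTreeSpanner_iff h)

end Pool.Agent.H673R2.Ts
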