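import Pool.Agent.H673R2.TsTree
import Pool.Agent.H673R2.TsDefs
import Pool.Agent.H673R2.PdpCol

/-!
# The reduction to tree 3-spanners
-/

namespace Pool.Agent.H673R2.Ts

open Pool.Agent.NPC Pool.Agent.H673R2.Pdp

/-- Well formed constraints without trivial ones. -/
def EqOk2 (cs : List Con) : Prop :=
  EqOk cs ∧ ∀ e ∈ cs, e.2.1 ≠ e.2.2.1 ∧ 2 ≤ e.2.2.2

/-- The edge `x y` and the two paths which force it into any tree 3-spanner. -/
def fc (x y s : ℕ) : List (ℕ × ℕ) :=
  [(x, y), (x, s), (s, s + 1), (y, s + 1), (x, s + 2), (s + 2, s + 3), (y, s + 3)]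

/-- the vertex of the constant that differs from the Boolean value `b` -/
def cst (b : Bool) : ℕ := if b then 3 else 2

/-- The edges at the variable vertex `4 + i`. -/
def ve (i : ℕ) : List (ℕ × ℕ) := [(0, 4 + i), (1, 4 + i), (2, 4 + i), (3, 4 + i)]

/-- The edges of the gadget of a constraint, where `a` is its first vertex. -/
def blk (a : ℕ) (e : Con) : List (ℕ × ℕ) :=
  fc a (a + 1) (a + 2) ++ [(0, a), (1, a), (0, a + 1), (1, a + 1), (2 + e.2.1, a), (2 + e.2.2.1, a),
    (2 + e.2.2.2, a + 1), (cst e.1, a + 1)]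

/-- The edges of the graph. -/
def edgesOf (cs : List Con) : List (ℕ × ℕ) :=
  (fc 0 1 (2 * cs.length + 4) ++ fc 0 2 (2 * cs.length + 8) ++ fc 1 3 (2 * cs.length + 12)) ++
    (List.range (2 * cs.length)).flatMap ve ++
    cs.zipIdx.flatMap fun p => blk (2 * cs.length + 16 + 6 * p.2) p.1

/-- The graph of a list of constraints. -/
def instOf (cs : List Con) : Inst := (8 * cs.length + 16, edgesOf cs)

theorem mem_edgesOf {cs : List Con} {z : ℕ × ℕ} : z ∈ edgesOf cs ↔
    z ∈ fc 0 1 (2 * cs.length + 4) ∨ z ∈ fc 0 2 (2 * cs.length + 8) ∨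
    z ∈ fc 1 3 (2 * cs.length + 12) ∨ (∃ i < 2 * cs.length, z ∈ ve i) ∨
    ∃ (j : ℕ) (h : j < cs.length), z ∈ blk (2 * cs.length + 16 + 6 * j) cs[j] := by
  unfold edgesOf
  rw [List.mem_append, List.mem_append, List.mem_append, List.mem_append, List.mem_flatMap,
    List.mem_flatMap]
  have h : (∃ a ∈ cs.zipIdx, z ∈ blk (2 * cs.length + 16 + 6 * a.2) a.1) ↔
      ∃ (j : ℕ) (h : j < cs.length), z ∈ blk (2 * cs.length + 16 + 6 * j) cs[j] := by
    constructor
    · rintro ⟨⟨e, j⟩, h1, h2⟩
      rw [List.mem_zipIdx_iff_getElem?] at h1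
      simp only at h1 h2
      obtain ⟨h, rfl⟩ := List.getElem?_eq_some_iff.1 h1
      exact ⟨j, h, h2⟩
    · rintro ⟨j, h, h2⟩
      refine ⟨(cs[j], j), ?_, h2⟩
      rw [List.mem_zipIdx_iff_getElem?]
      exact List.getElem?_eq_getElem h
  rw [h]
  simp only [List.mem_range, or_assoc]

theorem mem_fc {x y s : ℕ} {z : ℕ × ℕ} : z ∈ fc x y s ↔ z = (x, y) ∨ z = (x, s) ∨
    z = (s, s + 1) ∨ z = (y, s + 1) ∨ z = (x, s + 2) ∨ z = (s + 2, s + 3) ∨ z = (y, s + 3) := by
  simp [fc]

theorem mem_ve {i : ℕ} {z : ℕ × ℕ} : z ∈ ve i ↔ z = (0, 4 + i) ∨ z = (1, 4 + i) ∨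
    z = (2, 4 + i) ∨ z = (3, 4 + i) := by
  simp [ve]

theorem mem_blk {a : ℕ} {e : Con} {z : ℕ × ℕ} : z ∈ blk a e ↔ z ∈ fc a (a + 1) (a + 2) ∨
    z = (0, a) ∨ z = (1, a) ∨ z = (0, a + 1) ∨ z = (1, a + 1) ∨ z = (2 + e.2.1, a) ∨
    z = (2 + e.2.2.1, a) ∨ z = (2 + e.2.2.2, a + 1) ∨ z = (cst e.1, a + 1) := by
  unfold blk
  rw [List.mem_append]
  simp

theorem cst_cases (b : Bool) : cst b = 2 ∨ cst b = 3 := by
  cases b <;> simp [cst]

theorem edge_bound {cs : List Con} (hok : EqOk2 cs) {z : ℕ × ℕ} (hz : z ∈ edgesOf cs) :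
    z.1 < z.2 ∧ z.2 < 8 * cs.length + 16 := by
  rcases mem_edgesOf.1 hz with h | h | h | ⟨i, hi, h⟩ | ⟨j, hj, h⟩
  · rcases mem_fc.1 h with rfl | rfl | rfl | rfl | rfl | rfl | rfl <;> simp only <;> omega
  · rcases mem_fc.1 h with rfl | rfl | rfl | rfl | rfl | rfl | rfl <;> simp only <;> omega
  · rcases mem_fc.1 h with rfl | rfl | rfl | rfl | rfl | rfl | rfl <;> simp only <;> omega
  · rcases mem_ve.1 h with rfl | rfl | rfl | rfl <;> simp only <;> omega
  · have h1 := hok.1.2 _ (List.getElem_mem hj)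
    have h2 := cst_cases cs[j].1
    rcases mem_blk.1 h with h | h
    · rcases mem_fc.1 h with rfl | rfl | rfl | rfl | rfl | rfl | rfl <;> simp only <;> omega
    · rcases h with rfl | rfl | rfl | rfl | rfl | rfl | rfl | rfl <;> simp only <;> omega

/-! ### From a tree 3-spanner to a solution of the constraints -/

section Back

variable {cs : List Con}

/-- the vertex number `k` -/
def vt (cs : List Con) (k : ℕ) (h : k < 8 * cs.length + 16) : Fin (instOf cs).1 := ⟨k, h⟩

theorem adj_iff {x y : Fin (instOf cs).1} : (graphOf (instOf cs)).Adj x y ↔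
    x ≠ y ∧ (((x : ℕ), (y : ℕ)) ∈ edgesOf cs ∨ ((y : ℕ), (x : ℕ)) ∈ edgesOf cs) := by
  unfold graphOf
  rw [SimpleGraph.fromRel_adj]
  rfl

theorem adj_of (hok : EqOk2 cs) {x y : Fin (instOf cs).1} (h : ((x : ℕ), (y : ℕ)) ∈ edgesOf cs) :
    (graphOf (instOf cs)).Adj x y := by
  rw [adj_iff]
  refine ⟨fun h1 => ?_, Or.inl h⟩
  have := edge_bound hok h
  rw [h1] at this
  simp only at this
  omega

/-- The only edges at the vertices `s, s + 1, s + 2, s + 3` are those of `fc x y s`. -/
def Only (cs : List Con) (x y s : ℕ) : Prop :=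
  ∀ z ∈ edgesOf cs, (s ≤ z.1 ∧ z.1 ≤ s + 3) ∨ (s ≤ z.2 ∧ z.2 ≤ s + 3) → z ∈ fc x y s

theorem only_base (hok : EqOk2 cs) : Only cs 0 1 (2 * cs.length + 4) ∧
    Only cs 0 2 (2 * cs.length + 8) ∧ Only cs 1 3 (2 * cs.length + 12) := by
  refine ⟨?_, ?_, ?_⟩
  all_goals
    intro z hz hs
    rcases mem_edgesOf.1 hz with h | h | h | ⟨i, hi, h⟩ | ⟨j, hj, h⟩
    · first | exact h | (exfalso; revert hs; rcases mem_fc.1 h with rfl | rfl | rfl | rfl | rfl | rfl | rfl <;> simp only <;> omega)
    · first | exact h | (exfalso; revert hs; rcases mem_fc.1 h with rfl | rfl | rfl | rfl | rfl | rfl | rfl <;> simp only <;> omega)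
    · first | exact h | (exfalso; revert hs; rcases mem_fc.1 h with rfl | rfl | rfl | rfl | rfl | rfl | rfl <;> simp only <;> omega)
    · exfalso; revert hs
      rcases mem_ve.1 h with rfl | rfl | rfl | rfl <;> simp only <;> omega
    · exfalso; revert hs
      have h1 := hok.1.2 _ (List.getElem_mem hj)
      have h2 := cst_cases cs[j].1
      rcases mem_blk.1 h with h | h
      · rcases mem_fc.1 h with rfl | rfl | rfl | rfl | rfl | rfl | rfl <;> simp only <;> omega
      · rcases h with rfl | rfl | rfl | rfl | rfl | rfl | rfl | rfl <;> simp only <;> omega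

theorem only_blk (hok : EqOk2 cs) {j : ℕ} (hj : j < cs.length) :
    Only cs (2 * cs.length + 16 + 6 * j) (2 * cs.length + 16 + 6 * j + 1)
      (2 * cs.length + 16 + 6 * j + 2) := by
  intro z hz hs
  rcases mem_edgesOf.1 hz with h | h | h | ⟨i, hi, h⟩ | ⟨j', hj', h⟩
  · exfalso; revert hs
    rcases mem_fc.1 h with rfl | rfl | rfl | rfl | rfl | rfl | rfl <;> simp only <;> omega
  · exfalso; revert hs
    rcases mem_fc.1 h with rfl | rfl | rfl | rfl | rfl | rfl | rfl <;> simp only <;> omega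
  · exfalso; revert hs
    rcases mem_fc.1 h with rfl | rfl | rfl | rfl | rfl | rfl | rfl <;> simp only <;> omega
  · exfalso; revert hs
    rcases mem_ve.1 h with rfl | rfl | rfl | rfl <;> simp only <;> omega
  · have h1 := hok.1.2 _ (List.getElem_mem hj')
    have h2 := cst_cases cs[j'].1
    by_cases hjj : j' = j
    · subst hjj
      rcases mem_blk.1 h with h | h
      · exact h
      · exfalso; revert hs
        rcases h with rfl | rfl | rfl | rfl | rfl | rfl | rfl | rfl <;> simp only <;> omega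
    · exfalso; revert hs
      rcases mem_blk.1 h with h | h
      · rcases mem_fc.1 h with rfl | rfl | rfl | rfl | rfl | rfl | rfl <;> simp only <;> omega
      · rcases h with rfl | rfl | rfl | rfl | rfl | rfl | rfl | rfl <;> simp only <;> omega

/-- Edges with the two paths are in every tree 3-spanner. -/
theorem tree_fc (hok : EqOk2 cs) {T : SimpleGraph (Fin (instOf cs).1)} (hT : T.IsTree)
    (hle : T ≤ graphOf (instOf cs))
    (h3 : ∀ a b, (graphOf (instOf cs)).Adj a b → T.dist a b ≤ 3) {x y s : ℕ}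
    (hsub : ∀ z ∈ fc x y s, z ∈ edgesOf cs) (ho : Only cs x y s) (hxs : x < s) (hys : y < s)
    (hxy : x ≠ y) (hs : s + 3 < 8 * cs.length + 16) :
    T.Adj (vt cs x (by omega)) (vt cs y (by omega)) := by
  have key : ∀ (z w : Fin (instOf cs).1), (graphOf (instOf cs)).Adj z w →
      (s ≤ (z : ℕ) ∧ (z : ℕ) ≤ s + 3) → (((z : ℕ), (w : ℕ)) ∈ fc x y s ∨ ((w : ℕ), (z : ℕ)) ∈ fc x y s) := by
    intro z w h hz
    rw [adj_iff] at h
    rcases h.2 with h | h
    · exact Or.inl (ho _ h (Or.inl hz))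
    · exact Or.inr (ho _ h (Or.inr hz))
  refine forced (p := vt cs s (by omega)) (q := vt cs (s + 1) (by omega))
    (p' := vt cs (s + 2) (by omega)) (q' := vt cs (s + 3) (by omega)) hT hle h3
    ?_ ?_ ?_ ?_ ?_ ?_ ?_ ?_ ?_ ?_ ?_ ?_ ?_ ?_ ?_ ?_
  · exact adj_of hok (hsub _ (by simp [fc, vt]))
  · exact adj_of hok (hsub _ (by simp [fc, vt]))
  · exact (adj_of hok (hsub _ (by simp [fc, vt]))).symm
  · intro z hz
    have := key _ _ hz ⟨le_rfl, by simp [vt]⟩
    rcases this with h | h <;> rcases mem_fc.1 h with h | h | h | h | h | h | h <;>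
      simp only [vt, Prod.mk.injEq] at h <;> first | omega | skip
    all_goals first | (left; ext; simp only [vt]; omega) | (right; ext; simp only [vt]; omega)
  · intro z hz
    have := key _ _ hz ⟨by simp [vt], by simp [vt]⟩
    rcases this with h | h <;> rcases mem_fc.1 h with h | h | h | h | h | h | h <;>
      simp only [vt, Prod.mk.injEq] at h <;> first | omega | skip
    all_goals first | (left; ext; simp only [vt]; omega) | (right; ext; simp only [vt]; omega)
  · exact adj_of hok (hsub _ (by simp [fc, vt]))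
  · exact adj_of hok (hsub _ (by simp [fc, vt]))
  · exact (adj_of hok (hsub _ (by simp [fc, vt]))).symm
  · intro z hz
    have := key _ _ hz ⟨by simp [vt], by simp [vt]⟩
    rcases this with h | h <;> rcases mem_fc.1 h with h | h | h | h | h | h | h <;>
      simp only [vt, Prod.mk.injEq] at h <;> first | omega | skip
    all_goals first | (left; ext; simp only [vt]; omega) | (right; ext; simp only [vt]; omega)
  · intro z hz
    have := key _ _ hz ⟨by simp [vt], by simp [vt]⟩
    rcases this with h | h <;> rcases mem_fc.1 h with h | h | h | h | h | h | h <;>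
      simp only [vt, Prod.mk.injEq] at h <;> first | omega | skip
    all_goals first | (left; ext; simp only [vt]; omega) | (right; ext; simp only [vt]; omega)
  all_goals
    intro h
    have := congrArg Fin.val h
    simp only [vt] at this
    omega

theorem fc_ab {j : ℕ} (hj : j < cs.length) : ∀ z ∈ fc (2 * cs.length + 16 + 6 * j)
    (2 * cs.length + 16 + 6 * j + 1) (2 * cs.length + 16 + 6 * j + 2), z ∈ edgesOf cs := by
  intro z hz
  exact mem_edgesOf.2 (Or.inr (Or.inr (Or.inr (Or.inr ⟨j, hj, mem_blk.2 (Or.inl hz)⟩))))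

theorem blk_mem {j : ℕ} (hj : j < cs.length) {z : ℕ × ℕ}
    (h : z ∈ blk (2 * cs.length + 16 + 6 * j) cs[j]) : z ∈ edgesOf cs :=
  mem_edgesOf.2 (Or.inr (Or.inr (Or.inr (Or.inr ⟨j, hj, h⟩))))

theorem back (hok : EqOk2 cs) (h : HasTreeSpanner 3 (instOf cs)) : EqSat cs := by
  classical
  obtain ⟨T, hle, hT, hst⟩ := h
  have h3 : ∀ a b, (graphOf (instOf cs)).Adj a b → T.dist a b ≤ 3 := by
    intro a b hab
    have := hst a b
    rw [SimpleGraph.dist_eq_one_iff_adj.2 hab] at this
    exact this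
  have h3' : ∀ (x y : ℕ) (hx : x < 8 * cs.length + 16) (hy : y < 8 * cs.length + 16),
      (x, y) ∈ edgesOf cs → T.dist (vt cs y hy) (vt cs x hx) ≤ 3 := by
    intro x y hx hy h
    exact h3 _ _ (adj_of hok (x := vt cs x hx) (y := vt cs y hy) h).symm
  have hne : ∀ (x y : ℕ) (hx : x < 8 * cs.length + 16) (hy : y < 8 * cs.length + 16), x ≠ y →
      vt cs x hx ≠ vt cs y hy := by
    intro x y hx hy h h'
    exact h (congrArg Fin.val h')
  have huv : T.Adj (vt cs 0 (by omega)) (vt cs 1 (by omega)) :=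
    tree_fc hok hT hle h3 (fun z hz => mem_edgesOf.2 (Or.inl hz)) (only_base hok).1 (by omega)
      (by omega) (by omega) (by omega)
  have hu0 : T.Adj (vt cs 0 (by omega)) (vt cs 2 (by omega)) :=
    tree_fc hok hT hle h3 (fun z hz => mem_edgesOf.2 (Or.inr (Or.inl hz))) (only_base hok).2.1
      (by omega) (by omega) (by omega) (by omega)
  have hv1 : T.Adj (vt cs 1 (by omega)) (vt cs 3 (by omega)) :=
    tree_fc hok hT hle h3 (fun z hz => mem_edgesOf.2 (Or.inr (Or.inr (Or.inl hz))))
      (only_base hok).2.2 (by omega) (by omega) (by omega) (by omega)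
  -- every variable vertex is joined to `0` or `1`
  have hw : ∀ (i : ℕ) (hi : i < 2 * cs.length + 2),
      T.Adj (vt cs (2 + i) (by omega)) (vt cs 0 (by omega)) ∨
      T.Adj (vt cs (2 + i) (by omega)) (vt cs 1 (by omega)) := by
    intro i hi
    by_cases h0 : i = 0
    · subst h0
      exact Or.inl hu0.symm
    by_cases h1 : i = 1
    · subst h1
      exact Or.inr hv1.symm
    obtain ⟨k, rfl⟩ : ∃ k, i = 2 + k := ⟨i - 2, by omega⟩
    have hmem : ∀ z ∈ ve k, z ∈ edgesOf cs := fun z hz =>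
      mem_edgesOf.2 (Or.inr (Or.inr (Or.inr (Or.inl ⟨k, by omega, hz⟩))))
    refine adj_mid hT (p := vt cs 2 (by omega)) (q := vt cs 3 (by omega)) hu0.symm huv hv1
      (hne _ _ _ _ (by omega)) (hne _ _ _ _ (by omega)) (hne _ _ _ _ (by omega))
      (hne _ _ _ _ (by omega)) ?_ ?_
    · refine h3' _ _ _ _ (hmem _ (mem_ve.2 (Or.inr (Or.inr (Or.inl ?_)))))
      rw [Prod.mk.injEq]
      omega
    · refine h3' _ _ _ _ (hmem _ (mem_ve.2 (Or.inr (Or.inr (Or.inr ?_)))))
      rw [Prod.mk.injEq]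
      omega
  have hexcl : ∀ (i : ℕ) (hi : i < 2 * cs.length + 2),
      T.Adj (vt cs (2 + i) (by omega)) (vt cs 0 (by omega)) →
      ¬ T.Adj (vt cs (2 + i) (by omega)) (vt cs 1 (by omega)) := by
    intro i hi h1 h2
    exact no_triangle hT h1 huv h2
  let val : ℕ → Bool := fun i => if hi : i < 2 * cs.length + 2 then
    decide (T.Adj (vt cs (2 + i) (by omega)) (vt cs 0 (by omega))) else true
  have hvt : ∀ (i : ℕ) (hi : i < 2 * cs.length + 2), val i = true →
      T.Adj (vt cs (2 + i) (by omega)) (vt cs 0 (by omega)) := by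
    intro i hi h
    simp only [val, dif_pos hi] at h
    exact of_decide_eq_true h
  have hvf : ∀ (i : ℕ) (hi : i < 2 * cs.length + 2), val i = false →
      T.Adj (vt cs (2 + i) (by omega)) (vt cs 1 (by omega)) := by
    intro i hi h
    simp only [val, dif_pos hi] at h
    rcases hw i hi with h1 | h1
    · exact absurd h1 (of_decide_eq_false h)
    · exact h1
  have hv0 : val 0 = true := by
    simp only [val]
    rw [dif_pos (by omega)]
    exact decide_eq_true hu0.symm
  have hv1' : val 1 = false := by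
    simp only [val]
    rw [dif_pos (by omega)]
    refine decide_eq_false fun h => ?_
    exact hexcl 1 (by omega) h hv1.symm
  -- a vertex with neighbours at both sides is joined to `0` or `1`
  have hmid : ∀ (x i k : ℕ) (hx : x < 8 * cs.length + 16) (hi : i < 2 * cs.length + 2)
      (hk : k < 2 * cs.length + 2), 2 ≤ x → val i = true → val k = false →
      (2 + i, x) ∈ edgesOf cs → (2 + k, x) ∈ edgesOf cs →
      T.Adj (vt cs x hx) (vt cs 0 (by omega)) ∨ T.Adj (vt cs x hx) (vt cs 1 (by omega)) := by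
    intro x i k hx hi hk hx2 h1 h2 h4 h5
    exact adj_mid hT (hvt i hi h1) huv (hvf k hk h2).symm (hne _ _ _ _ (by omega))
      (hne _ _ _ _ (by omega)) (hne _ _ _ _ (by omega)) (hne _ _ _ _ (by omega))
      (h3' _ _ _ _ h4) (h3' _ _ _ _ h5)
  refine ⟨val, hv0, hv1', ?_⟩
  intro e he hr
  obtain ⟨j, hj, rfl⟩ := List.getElem_of_mem he
  by_contra hpq
  obtain ⟨hp', hq', hr'⟩ := hok.1.2 _ (List.getElem_mem hj)
  have hab : T.Adj (vt cs (2 * cs.length + 16 + 6 * j) (by omega))
      (vt cs (2 * cs.length + 16 + 6 * j + 1) (by omega)) :=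
    tree_fc hok hT hle h3 (fc_ab hj) (only_blk hok hj) (by omega) (by omega) (by omega) (by omega)
  have hA : T.Adj (vt cs (2 * cs.length + 16 + 6 * j) (by omega)) (vt cs 0 (by omega)) ∨
      T.Adj (vt cs (2 * cs.length + 16 + 6 * j) (by omega)) (vt cs 1 (by omega)) := by
    have e1 : (2 + cs[j].2.1, 2 * cs.length + 16 + 6 * j) ∈ edgesOf cs :=
      blk_mem hj (mem_blk.2 (by simp))
    have e2 : (2 + cs[j].2.2.1, 2 * cs.length + 16 + 6 * j) ∈ edgesOf cs :=
      blk_mem hj (mem_blk.2 (by simp))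
    cases hp : val cs[j].2.1 <;> cases hq : val cs[j].2.2.1
    · exact absurd (hp.trans hq.symm) hpq
    · exact hmid _ _ _ _ hq' hp' (by omega) hq hp e2 e1
    · exact hmid _ _ _ _ hp' hq' (by omega) hp hq e1 e2
    · exact absurd (hp.trans hq.symm) hpq
  have hB : T.Adj (vt cs (2 * cs.length + 16 + 6 * j + 1) (by omega)) (vt cs 0 (by omega)) ∨
      T.Adj (vt cs (2 * cs.length + 16 + 6 * j + 1) (by omega)) (vt cs 1 (by omega)) := by
    have e1 : (2 + cs[j].2.2.2, 2 * cs.length + 16 + 6 * j + 1) ∈ edgesOf cs :=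
      blk_mem hj (mem_blk.2 (by simp))
    have e2 : (cst cs[j].1, 2 * cs.length + 16 + 6 * j + 1) ∈ edgesOf cs :=
      blk_mem hj (mem_blk.2 (by simp))
    cases hb : cs[j].1
    · rw [hb] at hr e2
      exact hmid _ 0 _ _ (by omega) hr' (by omega) hv0 hr e2 e1
    · rw [hb] at hr e2
      exact hmid _ _ 1 _ hr' (by omega) (by omega) hr hv1' e1 e2
  exact not_both hT hab huv (hne _ _ _ _ (by omega)) (hne _ _ _ _ (by omega))
    (hne _ _ _ _ (by omega)) (hne _ _ _ _ (by omega)) hA hB

end Back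

/-! ### From a solution of the constraints to a tree 3-spanner -/

/-- The parents of the vertices of the three basic forcing gadgets. -/
def bpar (k : ℕ) : ℕ := [0, 1, 0, 1, 0, 2, 0, 2, 1, 3, 1, 3].getD k 0

/-- the end of the edge `0 1` to which a variable vertex with the given value is joined -/
def sd (b : Bool) : ℕ := if b then 0 else 1

/-- The parents of the vertices of the gadget of a constraint. -/
def kpar (val : ℕ → Bool) (e : Con) (a k : ℕ) : ℕ :=
  if k = 0 then (if val e.2.1 = val e.2.2.1 then a + 1 else sd (val e.2.2.2))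
  else if k = 1 then (if val e.2.1 = val e.2.2.1 then sd (val e.2.1) else a)
  else if k = 3 ∨ k = 5 then a + 1 else a

/-- The levels of the vertices of the gadget of a constraint. -/
def klev (val : ℕ → Bool) (e : Con) (k : ℕ) : ℕ :=
  if k = 0 then (if val e.2.1 = val e.2.2.1 then 4 else 3)
  else if k = 1 then (if val e.2.1 = val e.2.2.1 then 3 else 4) else 5

/-- The parent function of the tree. -/
def par (cs : List Con) (val : ℕ → Bool) (x : ℕ) : ℕ :=
  if x ≤ 1 then 0 else if x < 2 * cs.length + 4 then sd (val (x - 2))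
  else if x < 2 * cs.length + 16 then bpar (x - (2 * cs.length + 4))
  else kpar val (cs.getD ((x - (2 * cs.length + 16)) / 6) (true, 0, 0, 0))
    (2 * cs.length + 16 + 6 * ((x - (2 * cs.length + 16)) / 6)) ((x - (2 * cs.length + 16)) % 6)

/-- The levels of the vertices of the tree. -/
def lev (cs : List Con) (val : ℕ → Bool) (x : ℕ) : ℕ :=
  if x ≤ 1 then x else if x < 2 * cs.length + 4 then 2
  else if x < 2 * cs.length + 16 then 3
  else klev val (cs.getD ((x - (2 * cs.length + 16)) / 6) (true, 0, 0, 0))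
    ((x - (2 * cs.length + 16)) % 6)

theorem sd_cases (b : Bool) : sd b = 0 ∨ sd b = 1 := by cases b <;> simp [sd]

theorem bpar_lt {k : ℕ} (hk : k < 12) : bpar k < 4 := by
  unfold bpar
  interval_cases k <;> simp

section Forward

variable {cs : List Con} {val : ℕ → Bool}

theorem par_one : par cs val 1 = 0 := by simp [par]

theorem par_w {i : ℕ} (hi : i < 2 * cs.length + 2) : par cs val (2 + i) = sd (val i) := by
  unfold par
  rw [if_neg (by omega), if_pos (by omega)]
  congr 2
  omega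

theorem par_b {k : ℕ} (hk : k < 12) : par cs val (2 * cs.length + 4 + k) = bpar k := by
  unfold par
  rw [if_neg (by omega), if_neg (by omega), if_pos (by omega)]
  congr 1
  omega

theorem par_k {j k : ℕ} (hj : j < cs.length) (hk : k < 6) :
    par cs val (2 * cs.length + 16 + 6 * j + k) =
      kpar val cs[j] (2 * cs.length + 16 + 6 * j) k := by
  unfold par
  rw [if_neg (by omega), if_neg (by omega), if_neg (by omega)]
  have h1 : (2 * cs.length + 16 + 6 * j + k - (2 * cs.length + 16)) / 6 = j := by omega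
  have h2 : (2 * cs.length + 16 + 6 * j + k - (2 * cs.length + 16)) % 6 = k := by omega
  rw [h1, h2, List.getD_eq_getElem _ _ hj]

theorem lev_w {i : ℕ} (hi : i < 2 * cs.length + 2) : lev cs val (2 + i) = 2 := by
  unfold lev
  rw [if_neg (by omega), if_pos (by omega)]

theorem lev_b {k : ℕ} (hk : k < 12) : lev cs val (2 * cs.length + 4 + k) = 3 := by
  unfold lev
  rw [if_neg (by omega), if_neg (by omega), if_pos (by omega)]

theorem lev_k {j k : ℕ} (hj : j < cs.length) (hk : k < 6) :
    lev cs val (2 * cs.length + 16 + 6 * j + k) = klev val cs[j] k := by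
  unfold lev
  rw [if_neg (by omega), if_neg (by omega), if_neg (by omega)]
  have h1 : (2 * cs.length + 16 + 6 * j + k - (2 * cs.length + 16)) / 6 = j := by omega
  have h2 : (2 * cs.length + 16 + 6 * j + k - (2 * cs.length + 16)) % 6 = k := by omega
  rw [h1, h2, List.getD_eq_getElem _ _ hj]

theorem lev_small {x : ℕ} (hx : x < 4) : lev cs val x < 3 := by
  unfold lev
  split_ifs <;> omega

theorem vcases {x : ℕ} (hx : x < 8 * cs.length + 16) : x = 0 ∨ x = 1 ∨
    (∃ i < 2 * cs.length + 2, x = 2 + i) ∨ (∃ k < 12, x = 2 * cs.length + 4 + k) ∨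
    ∃ j < cs.length, ∃ k < 6, x = 2 * cs.length + 16 + 6 * j + k := by
  by_cases h0 : x ≤ 1
  · omega
  by_cases h1 : x < 2 * cs.length + 4
  · exact Or.inr (Or.inr (Or.inl ⟨x - 2, by omega, by omega⟩))
  by_cases h2 : x < 2 * cs.length + 16
  · exact Or.inr (Or.inr (Or.inr (Or.inl ⟨x - (2 * cs.length + 4), by omega, by omega⟩)))
  · exact Or.inr (Or.inr (Or.inr (Or.inr ⟨(x - (2 * cs.length + 16)) / 6, by omega,
      (x - (2 * cs.length + 16)) % 6, by omega, by omega⟩)))

theorem par_lt {x : ℕ} (hx : x < 8 * cs.length + 16) : par cs val x < 8 * cs.length + 16 := by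
  rcases vcases hx with rfl | rfl | ⟨i, hi, rfl⟩ | ⟨k, hk, rfl⟩ | ⟨j, hj, k, hk, rfl⟩
  · simp [par]
  · simp [par]
  · rw [par_w hi]
    rcases sd_cases (val i) with h | h <;> omega
  · rw [par_b hk]
    have := bpar_lt hk
    omega
  · rw [par_k hj hk]
    unfold kpar
    have h1 := sd_cases (val cs[j].2.1)
    have h2 := sd_cases (val cs[j].2.2.2)
    split_ifs <;> omega

theorem lev_par {x : ℕ} (hx : x < 8 * cs.length + 16) (h0 : x ≠ 0) :
    lev cs val (par cs val x) < lev cs val x := by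
  rcases vcases hx with rfl | rfl | ⟨i, hi, rfl⟩ | ⟨k, hk, rfl⟩ | ⟨j, hj, k, hk, rfl⟩
  · exact absurd rfl h0
  · simp [par, lev]
  · rw [par_w hi, lev_w hi]
    rcases sd_cases (val i) with h | h <;> rw [h] <;> simp [lev]
  · rw [par_b hk, lev_b hk]
    exact lev_small (bpar_lt hk)
  · rw [par_k hj hk, lev_k hj hk]
    have hs : ∀ b, lev cs val (sd b) ≤ 1 := by
      intro b
      rcases sd_cases b with h | h <;> rw [h] <;> simp [lev]
    have ha : lev cs val (2 * cs.length + 16 + 6 * j) = klev val cs[j] 0 :=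
      lev_k (k := 0) hj (by omega)
    have hb : lev cs val (2 * cs.length + 16 + 6 * j + 1) = klev val cs[j] 1 :=
      lev_k hj (by omega)
    have h1 := hs (val cs[j].2.1)
    have h2 := hs (val cs[j].2.2.2)
    have h3 := hs (val cs[j].2.2.1)
    unfold kpar
    by_cases hv : val cs[j].2.1 = val cs[j].2.2.1
    · have ha' : lev cs val (2 * cs.length + 16 + 6 * j) = 4 := by rw [ha]; simp [klev, hv]
      have hb' : lev cs val (2 * cs.length + 16 + 6 * j + 1) = 3 := by rw [hb]; simp [klev, hv]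
      interval_cases k <;> simp [klev, hv] <;> omega
    · have ha' : lev cs val (2 * cs.length + 16 + 6 * j) = 3 := by rw [ha]; simp [klev, hv]
      have hb' : lev cs val (2 * cs.length + 16 + 6 * j + 1) = 4 := by rw [hb]; simp [klev, hv]
      interval_cases k <;> simp [klev, hv] <;> omega

theorem par_edge (h0 : val 0 = true) (h1 : val 1 = false) {x : ℕ} (hx : x < 8 * cs.length + 16)
    (hx0 : x ≠ 0) : (par cs val x, x) ∈ edgesOf cs ∨ (x, par cs val x) ∈ edgesOf cs := by
  rcases vcases hx with rfl | rfl | ⟨i, hi, rfl⟩ | ⟨k, hk, rfl⟩ | ⟨j, hj, k, hk, rfl⟩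
  · exact absurd rfl hx0
  · left
    rw [par_one]
    exact mem_edgesOf.2 (Or.inl (mem_fc.2 (Or.inl rfl)))
  · left
    rw [par_w hi]
    by_cases hi0 : i = 0
    · subst hi0
      rw [h0]
      exact mem_edgesOf.2 (Or.inr (Or.inl (mem_fc.2 (Or.inl rfl))))
    by_cases hi1 : i = 1
    · subst hi1
      rw [h1]
      exact mem_edgesOf.2 (Or.inr (Or.inr (Or.inl (mem_fc.2 (Or.inl rfl)))))
    · refine mem_edgesOf.2 (Or.inr (Or.inr (Or.inr (Or.inl ⟨i - 2, by omega, mem_ve.2 ?_⟩))))
      simp only [Prod.mk.injEq]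
      rcases sd_cases (val i) with h | h <;> omega
  · rw [par_b hk]
    interval_cases k
    · exact Or.inl (mem_edgesOf.2 (Or.inl (mem_fc.2 (by simp [bpar]))))
    · exact Or.inl (mem_edgesOf.2 (Or.inl (mem_fc.2 (by simp [bpar]))))
    · exact Or.inl (mem_edgesOf.2 (Or.inl (mem_fc.2 (by simp [bpar]))))
    · exact Or.inl (mem_edgesOf.2 (Or.inl (mem_fc.2 (by simp [bpar]))))
    · exact Or.inl (mem_edgesOf.2 (Or.inr (Or.inl (mem_fc.2 (by simp [bpar])))))
    · exact Or.inl (mem_edgesOf.2 (Or.inr (Or.inl (mem_fc.2 (by simp [bpar])))))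
    · exact Or.inl (mem_edgesOf.2 (Or.inr (Or.inl (mem_fc.2 (by simp [bpar])))))
    · exact Or.inl (mem_edgesOf.2 (Or.inr (Or.inl (mem_fc.2 (by simp [bpar])))))
    · exact Or.inl (mem_edgesOf.2 (Or.inr (Or.inr (Or.inl (mem_fc.2 (by simp [bpar]))))))
    · exact Or.inl (mem_edgesOf.2 (Or.inr (Or.inr (Or.inl (mem_fc.2 (by simp [bpar]))))))
    · exact Or.inl (mem_edgesOf.2 (Or.inr (Or.inr (Or.inl (mem_fc.2 (by simp [bpar]))))))
    · exact Or.inl (mem_edgesOf.2 (Or.inr (Or.inr (Or.inl (mem_fc.2 (by simp [bpar]))))))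
  · rw [par_k hj hk]
    have hin : ∀ z ∈ blk (2 * cs.length + 16 + 6 * j) cs[j], z ∈ edgesOf cs :=
      fun z hz => blk_mem hj hz
    have hm : ∀ b, (sd b, 2 * cs.length + 16 + 6 * j) ∈ edgesOf cs ∧
        (sd b, 2 * cs.length + 16 + 6 * j + 1) ∈ edgesOf cs := by
      intro b
      rcases sd_cases b with h | h <;> rw [h] <;>
        exact ⟨hin _ (mem_blk.2 (by simp)), hin _ (mem_blk.2 (by simp))⟩
    have hf : ∀ z ∈ fc (2 * cs.length + 16 + 6 * j) (2 * cs.length + 16 + 6 * j + 1)
        (2 * cs.length + 16 + 6 * j + 2), z ∈ edgesOf cs := fc_ab hj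
    unfold kpar
    by_cases hv : val cs[j].2.1 = val cs[j].2.2.1
    · interval_cases k <;> simp only [hv, if_true] <;> simp
      · right; exact hf _ (mem_fc.2 (by simp))
      · left; rw [← hv]; exact (hm _).2
      · left; exact hf _ (mem_fc.2 (by simp))
      · left; exact hf _ (mem_fc.2 (by simp))
      · left; exact hf _ (mem_fc.2 (by simp))
      · left; exact hf _ (mem_fc.2 (by simp))
    · interval_cases k <;> simp only [hv, if_false] <;> simp
      · left; exact (hm _).1
      · left; exact hf _ (mem_fc.2 (by simp))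
      · left; exact hf _ (mem_fc.2 (by simp))
      · left; exact hf _ (mem_fc.2 (by simp))
      · left; exact hf _ (mem_fc.2 (by simp))
      · left; exact hf _ (mem_fc.2 (by simp))

/-- Distances along the gadget `fc`. -/
theorem fc_dist {d : ℕ → ℕ → ℕ} (hs : ∀ x y, d x y = d y x)
    (ht : ∀ x y z, d x z ≤ d x y + d y z) {x y s : ℕ} (hxy : d x y ≤ 1) (h0 : d s x ≤ 1)
    (h1 : d (s + 1) y ≤ 1) (h2 : d (s + 2) x ≤ 1) (h3 : d (s + 3) y ≤ 1) :
    ∀ z ∈ fc x y s, d z.1 z.2 ≤ 3 := by
  intro z hz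
  rcases mem_fc.1 hz with rfl | rfl | rfl | rfl | rfl | rfl | rfl
  · simp only; omega
  · simp only; rw [hs]; omega
  · simp only
    have := ht s x (s + 1)
    have := ht x y (s + 1)
    have := hs y (s + 1)
    omega
  · simp only; rw [hs]; omega
  · simp only; rw [hs]; omega
  · simp only
    have := ht (s + 2) x (s + 3)
    have := ht x y (s + 3)
    have := hs y (s + 3)
    omega
  · simp only; rw [hs]; omega

/-- All edges are stretched by at most `3`. -/
theorem edge_dist (hok : EqOk2 cs) (h0 : val 0 = true) (h1 : val 1 = false)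
    (hv : ∀ e ∈ cs, val e.2.2.2 = e.1 → val e.2.1 = val e.2.2.1) {d : ℕ → ℕ → ℕ}
    (hz : ∀ x, d x x = 0) (hs : ∀ x y, d x y = d y x) (ht : ∀ x y z, d x z ≤ d x y + d y z)
    (hp : ∀ x < 8 * cs.length + 16, x ≠ 0 → d x (par cs val x) ≤ 1) :
    ∀ z ∈ edgesOf cs, d z.1 z.2 ≤ 3 := by
  have h01 : d 0 1 ≤ 1 := by
    have := hp 1 (by omega) (by omega)
    rw [par_one, hs] at this
    exact this
  have hsd : ∀ b b', d (sd b) (sd b') ≤ 1 := by
    intro b b'
    have e1 := hz 0
    have e2 := hz 1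
    have e3 := hs 1 0
    cases b <;> cases b' <;> simp only [sd, if_true] <;> simp <;> omega
  have hw : ∀ i < 2 * cs.length + 2, d (2 + i) (sd (val i)) ≤ 1 := by
    intro i hi
    have := hp (2 + i) (by omega) (by omega)
    rwa [par_w hi] at this
  have hw0 : d 2 0 ≤ 1 := by
    have := hw 0 (by omega)
    rw [h0] at this
    exact this
  have hw1 : d 3 1 ≤ 1 := by
    have := hw 1 (by omega)
    rw [h1] at this
    exact this
  have hb : ∀ k < 12, d (2 * cs.length + 4 + k) (bpar k) ≤ 1 := by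
    intro k hk
    have := hp (2 * cs.length + 4 + k) (by omega) (by omega)
    rwa [par_b hk] at this
  intro z hz'
  rcases mem_edgesOf.1 hz' with h | h | h | ⟨i, hi, h⟩ | ⟨j, hj, h⟩
  · exact fc_dist hs ht h01 (hb 0 (by omega)) (hb 1 (by omega)) (hb 2 (by omega))
      (hb 3 (by omega)) z h
  · refine fc_dist hs ht ?_ (hb 4 (by omega)) (hb 5 (by omega)) (hb 6 (by omega))
      (hb 7 (by omega)) z h
    rw [hs]
    exact hw0
  · refine fc_dist hs ht ?_ (hb 8 (by omega)) (hb 9 (by omega)) (hb 10 (by omega))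
      (hb 11 (by omega)) z h
    rw [hs]
    exact hw1
  · have e1 := hw (2 + i) (by omega)
    have e2 : 2 + (2 + i) = 4 + i := by omega
    rw [e2, hs] at e1
    have e3 : d 0 (sd (val (2 + i))) ≤ 1 := hsd true _
    have e4 : d 1 (sd (val (2 + i))) ≤ 1 := hsd false _
    have e5 := ht 0 (sd (val (2 + i))) (4 + i)
    have e6 := ht 1 (sd (val (2 + i))) (4 + i)
    rcases mem_ve.1 h with rfl | rfl | rfl | rfl
    · simp only; omega
    · simp only; omega
    · simp only
      have := ht 2 0 (4 + i)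
      omega
    · simp only
      have := ht 3 1 (4 + i)
      omega
  · have hk : ∀ k < 6, d (2 * cs.length + 16 + 6 * j + k)
        (kpar val cs[j] (2 * cs.length + 16 + 6 * j) k) ≤ 1 := by
      intro k hk
      have := hp (2 * cs.length + 16 + 6 * j + k) (by omega) (by omega)
      rwa [par_k hj hk] at this
    obtain ⟨hp', hq', hr'⟩ := hok.1.2 _ (List.getElem_mem hj)
    have hvj := hv _ (List.getElem_mem hj)
    have wp := hw _ hp'
    have wq := hw _ hq'
    have wr := hw _ hr'
    set a := 2 * cs.length + 16 + 6 * j with ha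
    have k0 := hk 0 (by omega)
    have k1 := hk 1 (by omega)
    have k2 := hk 2 (by omega)
    have k3 := hk 3 (by omega)
    have k4 := hk 4 (by omega)
    have k5 := hk 5 (by omega)
    have e2 : kpar val cs[j] a 2 = a := by simp [kpar]
    have e3 : kpar val cs[j] a 3 = a + 1 := by simp [kpar]
    have e4 : kpar val cs[j] a 4 = a := by simp [kpar]
    have e5 : kpar val cs[j] a 5 = a + 1 := by simp [kpar]
    rw [e2] at k2
    rw [e3] at k3
    rw [e4] at k4
    rw [e5] at k5
    -- the constant vertex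
    have wc : d (cst cs[j].1) (sd (!cs[j].1)) ≤ 1 := by
      cases cs[j].1
      · exact hw0
      · exact hw1
    -- distances from `x` at distance at most one from `c`
    have hgo : ∀ x c b y, d x (sd c) ≤ 1 → d y (sd b) ≤ 1 → d y x ≤ 3 := by
      intro x c b y hx hy
      have := ht y (sd b) x
      have := ht (sd b) (sd c) x
      have := hsd b c
      have := hs (sd c) x
      omega
    have hgo2 : ∀ x x' c y, d x' x ≤ 1 → d x (sd c) ≤ 1 → d y (sd c) ≤ 1 → d y x' ≤ 3 := by
      intro x x' c y hx' hx hy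
      have := ht y (sd c) x'
      have := ht (sd c) x x'
      have := hs x x'
      have := hs (sd c) x
      omega
    have d0 : ∀ b, d 0 (sd b) ≤ 1 := fun b => hsd true b
    have d1 : ∀ b, d 1 (sd b) ≤ 1 := fun b => hsd false b
    by_cases hpq : val cs[j].2.1 = val cs[j].2.2.1
    · have e0 : kpar val cs[j] a 0 = a + 1 := by simp [kpar, hpq]
      have e1 : kpar val cs[j] a 1 = sd (val cs[j].2.1) := by simp [kpar, hpq]
      rw [e0, add_zero] at k0
      rw [e1] at k1
      rw [← hpq] at wq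
      rcases mem_blk.1 h with h | h
      · exact fc_dist hs ht k0 k2 k3 k4 k5 z h
      · rcases h with rfl | rfl | rfl | rfl | rfl | rfl | rfl | rfl
        · exact hgo2 (a + 1) a _ 0 k0 k1 (d0 _)
        · exact hgo2 (a + 1) a _ 1 k0 k1 (d1 _)
        · exact hgo (a + 1) _ _ 0 k1 (d0 (val cs[j].2.1))
        · exact hgo (a + 1) _ _ 1 k1 (d1 (val cs[j].2.1))
        · exact hgo2 (a + 1) a _ _ k0 k1 wp
        · exact hgo2 (a + 1) a _ _ k0 k1 wq
        · exact hgo (a + 1) _ _ _ k1 wr
        · exact hgo (a + 1) _ _ _ k1 wc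
    · have e0 : kpar val cs[j] a 0 = sd (val cs[j].2.2.2) := by simp [kpar, hpq]
      have e1 : kpar val cs[j] a 1 = a := by simp [kpar, hpq]
      rw [e0, add_zero] at k0
      rw [e1] at k1
      have hr : val cs[j].2.2.2 = !cs[j].1 := by
        cases h3 : val cs[j].2.2.2 <;> cases h4 : cs[j].1
        · exact absurd (hvj (by rw [h3, h4])) hpq
        · rfl
        · rfl
        · exact absurd (hvj (by rw [h3, h4])) hpq
      rw [← hr] at wc
      rcases mem_blk.1 h with h | h
      · refine fc_dist hs ht ?_ k2 k3 k4 k5 z h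
        rw [hs]
        exact k1
      · rcases h with rfl | rfl | rfl | rfl | rfl | rfl | rfl | rfl
        · exact hgo a _ _ 0 k0 (d0 (val cs[j].2.2.2))
        · exact hgo a _ _ 1 k0 (d1 (val cs[j].2.2.2))
        · exact hgo2 a (a + 1) _ 0 k1 k0 (d0 _)
        · exact hgo2 a (a + 1) _ 1 k1 k0 (d1 _)
        · exact hgo a _ _ _ k0 wp
        · exact hgo a _ _ _ k0 wq
        · exact hgo2 a (a + 1) _ _ k1 k0 wr
        · exact hgo2 a (a + 1) _ _ k1 k0 wc

end Forward

end Pool.Agent.H673R2.Ts
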