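import Mathlib

/-!
# Facts on trees used for tree 3-spanners
-/

namespace Pool.Agent.H673R2.Ts

variable {V : Type*} {T : SimpleGraph V}

/-- The distance from a fixed vertex has no local maximum inside a path of a tree. -/
theorem dist_next (hT : T.IsTree) {x u v w : V} (huv : T.Adj u v) (hvw : T.Adj v w) (hne : u ≠ w)
    (h : T.dist x v = T.dist x u + 1) : T.dist x w = T.dist x v + 1 := by
  rcases hT.dist_eq_dist_add_one_of_adj x hvw with h1 | h1
  · exfalso
    obtain ⟨p, hp⟩ := hT.connected.exists_walk_length_eq_dist x u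
    obtain ⟨q, hq⟩ := hT.connected.exists_walk_length_eq_dist x w
    have hp' : (p.concat huv).IsPath := by
      apply SimpleGraph.Walk.isPath_of_length_eq_dist
      rw [SimpleGraph.Walk.length_concat, hp, h]
    have hq' : (q.concat hvw.symm).IsPath := by
      apply SimpleGraph.Walk.isPath_of_length_eq_dist
      rw [SimpleGraph.Walk.length_concat, hq, h1]
    have h2 := (hT.isAcyclic.subsingleton_path _ _).elim ⟨_, hp'⟩ ⟨_, hq'⟩
    have h3 : p.concat huv = q.concat hvw.symm := congrArg Subtype.val h2
    have h4 := congrArg SimpleGraph.Walk.penultimate h3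
    rw [SimpleGraph.Walk.penultimate_concat, SimpleGraph.Walk.penultimate_concat] at h4
    exact hne h4
  · exact h1

theorem eq_of_dist_eq_zero (hT : T.IsTree) {x y : V} (h : T.dist x y = 0) : x = y :=
  (hT.connected.dist_eq_zero_iff).1 h

/-- If `p, u, v, q` is a path of a tree and a vertex `x` not on it has distance at most `3` from
both `p` and `q`, then `x` is adjacent to `u` or `v`. -/
theorem adj_mid (hT : T.IsTree) {p u v q x : V} (hpu : T.Adj p u) (huv : T.Adj u v)
    (hvq : T.Adj v q) (hpv : p ≠ v) (huq : u ≠ q) (hxu : x ≠ u) (hxv : x ≠ v)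
    (hp : T.dist x p ≤ 3) (hq : T.dist x q ≤ 3) : T.Adj x u ∨ T.Adj x v := by
  rcases hT.dist_eq_dist_add_one_of_adj x huv with h | h
  · right
    have h1 := dist_next hT (x := x) huv.symm hpu.symm hpv.symm h
    have h2 : T.dist x v ≠ 0 := fun h0 => hxv (eq_of_dist_eq_zero hT h0)
    exact SimpleGraph.dist_eq_one_iff_adj.1 (by omega)
  · left
    have h1 := dist_next hT (x := x) huv hvq huq h
    have h2 : T.dist x u ≠ 0 := fun h0 => hxu (eq_of_dist_eq_zero hT h0)
    exact SimpleGraph.dist_eq_one_iff_adj.1 (by omega)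

theorem no_triangle (hT : T.IsTree) {x y z : V} (h1 : T.Adj x y) (h2 : T.Adj y z)
    (h3 : T.Adj x z) : False := by
  have a := hT.dist_eq_dist_add_one_of_adj x h2
  have b : T.dist x y = 1 := SimpleGraph.dist_eq_one_iff_adj.2 h1
  have c : T.dist x z = 1 := SimpleGraph.dist_eq_one_iff_adj.2 h3
  omega

theorem no_square (hT : T.IsTree) {x y z w : V} (h1 : T.Adj x y) (h2 : T.Adj y z)
    (h3 : T.Adj z w) (h4 : T.Adj w x) (hxz : x ≠ z) (hyw : y ≠ w) : False := by
  have b : T.dist x y = T.dist x x + 1 := by
    rw [SimpleGraph.dist_self]; exact SimpleGraph.dist_eq_one_iff_adj.2 h1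
  have c := dist_next hT h1 h2 hxz b
  have d := dist_next hT h2 h3 hyw c
  have e : T.dist x w = 1 := SimpleGraph.dist_eq_one_iff_adj.2 h4.symm
  omega

/-- Adjacent vertices `a`, `b` are not both joined to the ends of an edge `u v`. -/
theorem not_both (hT : T.IsTree) {a b u v : V} (hab : T.Adj a b) (huv : T.Adj u v)
    (hau : a ≠ u) (hav : a ≠ v) (hbu : b ≠ u) (hbv : b ≠ v)
    (ha : T.Adj a u ∨ T.Adj a v) (hb : T.Adj b u ∨ T.Adj b v) : False := by
  rcases ha with ha | ha <;> rcases hb with hb | hb
  · exact no_triangle hT hab hb ha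
  · exact no_square hT hab hb huv.symm ha.symm hav hbu
  · exact no_square hT hab hb huv ha.symm hau hbv
  · exact no_triangle hT hab hb ha

/-- paths of length at most 3 -/
theorem path_cases (hT : T.Connected) {x y : V} (hne : x ≠ y) (h : T.dist x y ≤ 3) :
    T.Adj x y ∨ (∃ z, T.Adj x z ∧ T.Adj z y) ∨ ∃ z w, T.Adj x z ∧ T.Adj z w ∧ T.Adj w y := by
  obtain ⟨p, hp⟩ := hT.exists_walk_length_eq_dist x y
  match p, hp with
  | .nil, _ => exact absurd rfl hne
  | .cons h1 .nil, _ => exact Or.inl h1
  | .cons h1 (.cons h2 .nil), _ => exact Or.inr (Or.inl ⟨_, h1, h2⟩)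
  | .cons h1 (.cons h2 (.cons h3 .nil)), _ => exact Or.inr (Or.inr ⟨_, _, h1, h2, h3⟩)
  | .cons h1 (.cons h2 (.cons h3 (.cons h4 p))), hp =>
    simp only [SimpleGraph.Walk.length_cons] at hp
    omega

/-- A path `x p q y` whose inner vertices have degree 2 in `G`: the tree contains the edge `x y` or
the path. -/
theorem forced_aux {G : SimpleGraph V} (hT : T.IsTree) (hle : T ≤ G) {x y p q : V}
    (h3 : ∀ a b, G.Adj a b → T.dist a b ≤ 3)
    (hxp : G.Adj x p) (hpq : G.Adj p q) (hqy : G.Adj q y)
    (hp : ∀ z, G.Adj p z → z = x ∨ z = q) (hq : ∀ z, G.Adj q z → z = p ∨ z = y)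
    (hxq : x ≠ q) (hpy : p ≠ y) (hxy : x ≠ y) :
    T.Adj x y ∨ (T.Adj x p ∧ T.Adj p q ∧ T.Adj q y) := by
  by_cases h1 : T.Adj x p
  · by_cases h2 : T.Adj p q
    · by_cases h4 : T.Adj q y
      · exact Or.inr ⟨h1, h2, h4⟩
      · -- path from y to q passes p
        left
        rcases path_cases hT.connected hqy.ne (h3 _ _ hqy) with h | ⟨z, hz1, hz2⟩ | ⟨z, w, hz1, hz2, hz3⟩
        · exact absurd h h4
        · rcases hq z (hle hz1) with rfl | rfl
          · rcases hp _ (hle hz2) with h | h
            · exact absurd h hxy.symm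
            · exact absurd h.symm hqy.ne
          · exact absurd hz1 h4
        · rcases hq z (hle hz1) with rfl | rfl
          · rcases hp _ (hle hz2) with h | h
            · subst h
              exact hz3
            · subst h
              exact absurd hz3 h4
          · exact absurd hz1 h4
    · left
      rcases path_cases hT.connected hpq.ne (h3 _ _ hpq) with h | ⟨z, hz1, hz2⟩ | ⟨z, w, hz1, hz2, hz3⟩
      · exact absurd h h2
      · rcases hp z (hle hz1) with rfl | rfl
        · rcases hq _ (hle hz2.symm) with h | h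
          · exact absurd h h1.ne
          · exact absurd h hxy
        · exact absurd hz1 h2
      · rcases hp z (hle hz1) with rfl | rfl
        · rcases hq _ (hle hz3.symm) with h | h
          · subst h
            exact absurd hz3 h2
          · subst h
            exact hz2
        · exact absurd hz1 h2
  · left
    rcases path_cases hT.connected hxp.symm.ne (h3 _ _ hxp.symm) with h | ⟨z, hz1, hz2⟩ |
      ⟨z, w, hz1, hz2, hz3⟩
    · exact absurd h.symm h1
    · rcases hp z (hle hz1) with rfl | rfl
      · exact absurd hz1.symm h1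
      · rcases hq _ (hle hz2) with h | h
        · exact absurd h hxp.ne
        · exact absurd h hxy
    · rcases hp z (hle hz1) with rfl | rfl
      · exact absurd hz1.symm h1
      · rcases hq _ (hle hz2) with h | h
        · subst h
          exact absurd hz3.symm h1
        · subst h
          exact hz3.symm

/-- An edge `x y` with two paths `x p q y`, `x p' q' y` with inner vertices of degree 2 belongs to
any tree 3-spanner. -/
theorem forced {G : SimpleGraph V} (hT : T.IsTree) (hle : T ≤ G) {x y p q p' q' : V}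
    (h3 : ∀ a b, G.Adj a b → T.dist a b ≤ 3)
    (hxp : G.Adj x p) (hpq : G.Adj p q) (hqy : G.Adj q y)
    (hp : ∀ z, G.Adj p z → z = x ∨ z = q) (hq : ∀ z, G.Adj q z → z = p ∨ z = y)
    (hxp' : G.Adj x p') (hpq' : G.Adj p' q') (hqy' : G.Adj q' y)
    (hp' : ∀ z, G.Adj p' z → z = x ∨ z = q') (hq' : ∀ z, G.Adj q' z → z = p' ∨ z = y)
    (hxy : x ≠ y) (hqq : q ≠ q') (hxq : x ≠ q) (hpy : p ≠ y)
    (hxq' : x ≠ q') (hpy' : p' ≠ y) : T.Adj x y := by
  rcases forced_aux hT hle h3 hxp hpq hqy hp hq hxq hpy hxy with h | ⟨h1, h2, h4⟩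
  · exact h
  rcases forced_aux hT hle h3 hxp' hpq' hqy' hp' hq' hxq' hpy' hxy with h | ⟨h1', h2', h4'⟩
  · exact h
  exfalso
  have b : T.dist x p = T.dist x x + 1 := by
    rw [SimpleGraph.dist_self]; exact SimpleGraph.dist_eq_one_iff_adj.2 h1
  have c := dist_next hT h1 h2 hxq b
  have d := dist_next hT h2 h4 hpy c
  have e := dist_next hT h4 h4'.symm hqq d
  have b' : T.dist x p' = T.dist x x + 1 := by
    rw [SimpleGraph.dist_self]; exact SimpleGraph.dist_eq_one_iff_adj.2 h1'
  have c' := dist_next hT h1' h2' hxq' b'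
  omega

/-- In a connected graph it suffices to bound the distances of adjacent vertices. -/
theorem stretch_of_adj {G : SimpleGraph V} (hG : G.Connected) (hT : T.Connected) {t : ℕ}
    (h : ∀ x y, G.Adj x y → T.dist x y ≤ t) (x y : V) : T.dist x y ≤ t * G.dist x y := by
  obtain ⟨p, hp⟩ := hG.exists_walk_length_eq_dist x y
  rw [← hp]
  clear hp
  induction p with
  | nil => simp
  | @cons a b c hab p ih =>
    rw [SimpleGraph.Walk.length_cons]
    have h1 := hT.dist_triangle (u := a) (v := b) (w := c)
    have h2 := h _ _ hab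
    nlinarith

/-- A parent function with decreasing levels defines a tree. -/
theorem isTree_of_parent [Fintype V] (r : V) (par : V → V) (lev : V → ℕ)
    (hlev : ∀ x, x ≠ r → lev (par x) < lev x) :
    (SimpleGraph.fromRel fun x y : V => x ≠ r ∧ y = par x).IsTree := by
  classical
  set T := SimpleGraph.fromRel fun x y : V => x ≠ r ∧ y = par x with hTdef
  have hadj : ∀ x, x ≠ r → T.Adj x (par x) := by
    intro x hx
    rw [hTdef, SimpleGraph.fromRel_adj]
    refine ⟨fun h => ?_, Or.inl ⟨hx, rfl⟩⟩
    have := hlev x hx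
    rw [← h] at this
    omega
  have hreach : ∀ n x, lev x = n → T.Reachable r x := by
    intro n
    induction n using Nat.strong_induction_on with
    | _ n ih =>
      intro x hx
      by_cases hr : x = r
      · rw [hr]
      · exact (ih _ (hx ▸ hlev x hr) _ rfl).trans (hadj x hr).symm.reachable
  have hconn : T.Connected := by
    have : Nonempty V := ⟨r⟩
    refine SimpleGraph.Connected.mk ?_
    intro x y
    exact (hreach _ x rfl).symm.trans (hreach _ y rfl)
  rw [SimpleGraph.isTree_iff_connected_and_card]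
  refine ⟨hconn, ?_⟩
  have h1 := hconn.card_vert_le_card_edgeSet_add_one
  have h2 : T.edgeSet ⊆ (fun x => s(x, par x)) '' {x | x ≠ r} := by
    intro e
    induction e using Sym2.ind with
    | _ x y =>
      intro h
      rw [SimpleGraph.mem_edgeSet, hTdef, SimpleGraph.fromRel_adj] at h
      rcases h with ⟨-, ⟨h1, h2⟩ | ⟨h1, h2⟩⟩
      · exact ⟨x, h1, by simp [h2]⟩
      · exact ⟨y, h1, by simp [h2, Sym2.eq_swap]⟩
  have h3 : Nat.card T.edgeSet ≤ Fintype.card V - 1 := by
    rw [Nat.card_coe_set_eq]
    calc T.edgeSet.ncard ≤ ((fun x => s(x, par x)) '' {x | x ≠ r}).ncard :=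
          Set.ncard_le_ncard h2 (Set.toFinite _)
      _ ≤ ({x | x ≠ r} : Set V).ncard := Set.ncard_image_le (Set.toFinite _)
      _ = Fintype.card V - 1 := by
          have : ({x | x ≠ r} : Set V) = ((Finset.univ.erase r : Finset V) : Set V) := by
            ext z; simp
          rw [this, Set.ncard_coe_finset, Finset.card_erase_of_mem (Finset.mem_univ _),
            Finset.card_univ]
  have h4 : 0 < Fintype.card V := Fintype.card_pos_iff.2 ⟨r⟩
  have h5 : Nat.card V = Fintype.card V := Nat.card_eq_fintype_card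
  omega

end Pool.Agent.H673R2.Ts
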